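import Pool.Agent.Lib.MP_1660ca_co.Defs

/-!
# Evolution of lists of boxes
-/

namespace Pool.Agent.Lib.MP_1660ca_co

open Finset

/-- The array `A k h f g`, defined by the recurrence. -/
def A : ℕ → ℕ → ℕ → ℕ → ℕ
  | 0, _, _, _ => 1
  | k + 1, h, f, g =>
      (f + 1) * A k h (f + 1) g +
      ∑ a ∈ range (h + f + 1), ∑ b ∈ range (f + g + 1),
        if a < h + b then
          ∑ j : Fin (k + 1), k.choose j *
            (if a < h then B j a b else A j h (a - h) (h + b - a)) *
            (if b ≤ f then A (k - j) (h + b - a) (f - b) g
              else B (k - j) (h + f - a) (f + g - b))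
        else 0
  termination_by k => k
  decreasing_by all_goals omega

/-- A box: an outer box `(h, f, g)` or an inner box `(h, g)`. -/
inductive Box
  | out (h f g : ℕ) : Box
  | inn (h g : ℕ) : Box

open Box

/-- Replacement of an outer box after inserting a letter at offset `a` in `v` and `b` in `u`. -/
def repOut (h f g a b : ℕ) : List Box :=
  if a < h + b then
    (if a < h then [inn a b] else [out h (a - h) (h + b - a)]) ++
      (if b ≤ f then [out (h + b - a) (f - b) g] else [inn (h + f - a) (f + g - b)])
  else [out h (f + 1) g]

/-- Replacement of an inner box. -/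
def repInn (h g a b : ℕ) : List Box := [inn a b] ++ [inn (h - a) (g - b)]

/-- The sum of `Φ` over all the replacements of a box. -/
def boxSum (b : Box) (Φ : List Box → ℕ) : ℕ :=
  match b with
  | out h f g => ∑ b ∈ range (f + g + 1), ∑ a ∈ range (h + f + 1),
      if a ≤ h + b then Φ (repOut h f g a b) else 0
  | inn h g => ∑ b ∈ range (g + 1), ∑ a ∈ range (h + 1), Φ (repInn h g a b)

/-- The sum of `Φ` over all the moves of a state. -/
def moveSum : List Box → (List Box → ℕ) → ℕ
  | [], _ => 0
  | b :: S, Φ => boxSum b (fun m => Φ (m ++ S)) + moveSum S (fun S' => Φ (b :: S'))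

/-- The number of `k`-step histories of a state. -/
def W : ℕ → List Box → ℕ
  | 0, _ => 1
  | k + 1, S => moveSum S (W k)

lemma boxSum_zero (b : Box) : boxSum b (fun _ => 0) = 0 := by
  cases b <;> simp [boxSum]

lemma boxSum_add (b : Box) (Φ Ψ : List Box → ℕ) :
    boxSum b (fun m => Φ m + Ψ m) = boxSum b Φ + boxSum b Ψ := by
  cases b with
  | out h f g =>
    simp only [boxSum, ← sum_add_distrib]
    refine sum_congr rfl fun b _ => sum_congr rfl fun a _ => ?_
    split <;> simp
  | inn h g => simp only [boxSum, ← sum_add_distrib]

lemma boxSum_mul (b : Box) (c : ℕ) (Φ : List Box → ℕ) :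
    boxSum b (fun m => c * Φ m) = c * boxSum b Φ := by
  cases b with
  | out h f g =>
    simp only [boxSum, mul_sum]
    refine sum_congr rfl fun b _ => sum_congr rfl fun a _ => ?_
    split <;> simp
  | inn h g => simp only [boxSum, mul_sum]

lemma moveSum_zero (S : List Box) : moveSum S (fun _ => 0) = 0 := by
  induction S with
  | nil => rfl
  | cons b S ih => simp [moveSum, boxSum_zero, ih]

lemma moveSum_add (S : List Box) (Φ Ψ : List Box → ℕ) :
    moveSum S (fun m => Φ m + Ψ m) = moveSum S Φ + moveSum S Ψ := by
  induction S generalizing Φ Ψ with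
  | nil => rfl
  | cons b S ih =>
    simp only [moveSum, boxSum_add, ih]
    ring

lemma moveSum_mul (S : List Box) (c : ℕ) (Φ : List Box → ℕ) :
    moveSum S (fun m => c * Φ m) = c * moveSum S Φ := by
  induction S generalizing Φ with
  | nil => rfl
  | cons b S ih => simp only [moveSum, boxSum_mul, ih]; ring

lemma moveSum_sum {ι : Type} (s : Finset ι) (S : List Box) (Φ : ι → List Box → ℕ) :
    moveSum S (fun m => ∑ i ∈ s, Φ i m) = ∑ i ∈ s, moveSum S (Φ i) := by
  classical
  induction s using Finset.induction_on with
  | empty => simp [moveSum_zero]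
  | insert i s hi ih => simp only [sum_insert hi, moveSum_add, ih]

lemma moveSum_append (S T : List Box) (Φ : List Box → ℕ) :
    moveSum (S ++ T) Φ = moveSum S (fun S' => Φ (S' ++ T)) + moveSum T (fun T' => Φ (S ++ T')) := by
  induction S generalizing Φ with
  | nil => simp [moveSum]
  | cons b S ih =>
    simp only [List.cons_append, moveSum, ih, List.append_assoc, add_assoc]

/-- The binomial convolution. -/
def bc (k : ℕ) (F G : ℕ → ℕ) : ℕ :=
  ∑ ij ∈ antidiagonal k, k.choose ij.1 * (F ij.1 * G ij.2)

lemma bc_succ (k : ℕ) (F G : ℕ → ℕ) :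
    bc (k + 1) F G = bc k (fun j => F (j + 1)) G + bc k F (fun j => G (j + 1)) := by
  have := Finset.sum_antidiagonal_choose_succ_mul (R := ℕ) (fun i j => F i * G j) k
  simp only [Nat.cast_id] at this
  rw [bc, this, add_comm]
  congr 1
  refine sum_congr rfl fun ij hij => ?_
  have h := mem_antidiagonal.mp hij
  rw [← h, Nat.choose_symm_add]

lemma W_append (k : ℕ) (S T : List Box) :
    W k (S ++ T) = bc k (fun j => W j S) (fun j => W j T) := by
  induction k generalizing S T with
  | zero => simp [bc, W]
  | succ k ih =>
    rw [bc_succ]
    simp only [W]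
    rw [moveSum_append]
    congr 1
    · simp only [ih, bc, moveSum_sum]
      refine sum_congr rfl fun ij _ => ?_
      have : (fun m => k.choose ij.1 * (W ij.1 m * W ij.2 T)) =
          (fun m => (k.choose ij.1 * W ij.2 T) * W ij.1 m) := by
        funext m; ring
      rw [this, moveSum_mul]; ring
    · simp only [ih, bc, moveSum_sum]
      refine sum_congr rfl fun ij _ => ?_
      have : (fun m => k.choose ij.1 * (W ij.1 S * W ij.2 m)) =
          (fun m => (k.choose ij.1 * W ij.1 S) * W ij.2 m) := by
        funext m; ring
      rw [this, moveSum_mul]; ring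

lemma vand (i j h : ℕ) :
    ∑ ab ∈ antidiagonal h, (ab.1 + i).choose i * (ab.2 + j).choose j =
      (h + i + j + 1).choose (i + j + 1) := by
  induction i generalizing h with
  | zero =>
    have := Finset.sum_antidiagonal_choose_add j h
    simp only [add_zero, Nat.choose_zero_right, one_mul, zero_add]
    rw [show h + j + 1 = j + h + 1 by ring, ← this]
    refine sum_congr rfl fun ab _ => ?_
    rw [add_comm]
  | succ i ih =>
    induction h with
    | zero => simp
    | succ h ih2 =>
      have h1 : ∑ ab ∈ antidiagonal (h + 1), (ab.1 + (i + 1)).choose (i + 1) * (ab.2 + j).choose j =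
          ∑ ab ∈ antidiagonal (h + 1), (ab.1 + i).choose i * (ab.2 + j).choose j +
          ∑ ab ∈ antidiagonal h, (ab.1 + (i + 1)).choose (i + 1) * (ab.2 + j).choose j := by
        rw [Nat.sum_antidiagonal_succ, Nat.sum_antidiagonal_succ]
        have key : ∑ p ∈ antidiagonal h, (p.1 + 1 + (i + 1)).choose (i + 1) * (p.2 + j).choose j =
            ∑ p ∈ antidiagonal h, (p.1 + 1 + i).choose i * (p.2 + j).choose j +
            ∑ p ∈ antidiagonal h, (p.1 + (i + 1)).choose (i + 1) * (p.2 + j).choose j := by
          rw [← sum_add_distrib]
          refine sum_congr rfl fun ab _ => ?_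
          rw [show ab.1 + 1 + (i + 1) = (ab.1 + 1 + i) + 1 by ring, Nat.choose_succ_succ,
            show ab.1 + 1 + i = ab.1 + (i + 1) by ring]
          ring
        rw [key]
        simp
        ring
      rw [h1, ih, ih2]
      rw [show h + 1 + (i + 1) + j + 1 = (h + 1 + i + j + 1) + 1 by ring,
        show i + 1 + j + 1 = (i + j + 1) + 1 by ring,
        Nat.choose_succ_succ (h + 1 + i + j + 1) (i + j + 1),
        show h + (i + 1) + j + 1 = h + 1 + i + j + 1 by ring]

lemma moveSum_singleton (b : Box) (Φ : List Box → ℕ) : moveSum [b] Φ = boxSum b Φ := by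
  simp [moveSum]

lemma W_inn (k h g : ℕ) : W k [inn h g] = B k h g := by
  induction k using Nat.strong_induction_on generalizing h g with
  | _ k ih =>
    cases k with
    | zero => simp [W, B]
    | succ k =>
      rw [W, moveSum_singleton]
      simp only [boxSum, repInn, W_append, bc]
      have h1 : ∀ b a : ℕ, ∑ ij ∈ antidiagonal k, k.choose ij.1 *
            (W ij.1 [inn a b] * W ij.2 [inn (h - a) (g - b)]) =
          ∑ ij ∈ antidiagonal k, k.factorial *
            (((a + ij.1).choose ij.1 * ((h - a) + ij.2).choose ij.2) *
            ((b + ij.1).choose ij.1 * ((g - b) + ij.2).choose ij.2)) := by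
        intro b a
        refine sum_congr rfl fun ij hij => ?_
        have hij' := mem_antidiagonal.mp hij
        rw [ih ij.1 (by omega), ih ij.2 (by omega), B, B]
        have h2 := Nat.add_choose_mul_factorial_mul_factorial ij.1 ij.2
        have h3 : k.choose ij.1 = k.choose ij.2 := by rw [← hij', Nat.choose_symm_add]
        rw [hij'] at h2
        rw [← h2, h3]; ring
      simp only [h1]
      have h3 : ∑ b ∈ range (g + 1), ∑ a ∈ range (h + 1), ∑ ij ∈ antidiagonal k, k.factorial *
            (((a + ij.1).choose ij.1 * ((h - a) + ij.2).choose ij.2) *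
            ((b + ij.1).choose ij.1 * ((g - b) + ij.2).choose ij.2)) =
          ∑ ij ∈ antidiagonal k, k.factorial *
            ((∑ a ∈ range (h + 1), (a + ij.1).choose ij.1 * ((h - a) + ij.2).choose ij.2) *
            (∑ b ∈ range (g + 1), (b + ij.1).choose ij.1 * ((g - b) + ij.2).choose ij.2)) := by
        rw [sum_comm]
        have e1 : ∀ a ∈ range (h + 1), ∑ b ∈ range (g + 1), ∑ ij ∈ antidiagonal k, k.factorial *
            (((a + ij.1).choose ij.1 * ((h - a) + ij.2).choose ij.2) *
            ((b + ij.1).choose ij.1 * ((g - b) + ij.2).choose ij.2)) =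
            ∑ ij ∈ antidiagonal k, ∑ b ∈ range (g + 1), k.factorial *
            (((a + ij.1).choose ij.1 * ((h - a) + ij.2).choose ij.2) *
            ((b + ij.1).choose ij.1 * ((g - b) + ij.2).choose ij.2)) := fun a _ => sum_comm
        rw [sum_congr rfl e1, sum_comm]
        refine sum_congr rfl fun ij _ => ?_
        rw [sum_mul_sum, mul_sum]
        refine sum_congr rfl fun a _ => ?_
        rw [mul_sum]
      rw [h3]
      have h4 : ∀ ij ∈ antidiagonal k, k.factorial *
            ((∑ a ∈ range (h + 1), (a + ij.1).choose ij.1 * ((h - a) + ij.2).choose ij.2) *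
            (∑ b ∈ range (g + 1), (b + ij.1).choose ij.1 * ((g - b) + ij.2).choose ij.2)) =
            k.factorial * ((h + (k + 1)).choose (k + 1) * (g + (k + 1)).choose (k + 1)) := by
        intro ij hij
        have hij' := mem_antidiagonal.mp hij
        have h5 : ∀ x : ℕ, ∑ a ∈ range (x + 1), (a + ij.1).choose ij.1 * ((x - a) + ij.2).choose ij.2
            = (x + (k + 1)).choose (k + 1) := by
          intro x
          have := vand ij.1 ij.2 x
          rw [Finset.Nat.sum_antidiagonal_eq_sum_range_succ_mk] at this
          simp only at this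
          rw [this, ← hij', show x + ij.1 + ij.2 + 1 = x + (ij.1 + ij.2 + 1) by ring]
        rw [h5, h5]
      rw [sum_congr rfl h4, sum_const, Nat.card_antidiagonal, B, Nat.factorial_succ]
      simp only [smul_eq_mul]
      ring

lemma bc_eq_fin (k : ℕ) (F G : ℕ → ℕ) :
    bc k F G = ∑ j : Fin (k + 1), k.choose j * F j * G (k - j) := by
  rw [bc, Finset.Nat.sum_antidiagonal_eq_sum_range_succ_mk, Finset.sum_range]
  refine sum_congr rfl fun j _ => ?_
  ring

lemma W_out (k h f g : ℕ) : W k [out h f g] = A k h f g := by
  induction k using Nat.strong_induction_on generalizing h f g with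
  | _ k ih =>
    cases k with
    | zero => simp [W, A]
    | succ k =>
      rw [W, moveSum_singleton, A]
      simp only [boxSum]
      rw [sum_comm]
      have h1 : ∀ a ∈ range (h + f + 1), ∀ b ∈ range (f + g + 1),
          (if a ≤ h + b then W k (repOut h f g a b) else 0) =
          (if a = h + b then A k h (f + 1) g else 0) +
          (if a < h + b then
          ∑ j : Fin (k + 1), k.choose j *
            (if a < h then B j a b else A j h (a - h) (h + b - a)) *
            (if b ≤ f then A (k - j) (h + b - a) (f - b) g
              else B (k - j) (h + f - a) (f + g - b))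
          else 0) := by
        intro a ha b hb
        rcases lt_trichotomy a (h + b) with hab | hab | hab
        · rw [if_pos hab.le, if_neg hab.ne, if_pos hab, zero_add, repOut, if_pos hab, W_append,
            bc_eq_fin]
          refine sum_congr rfl fun j _ => ?_
          have hj := j.2
          congr 1
          · congr 1
            split
            · rw [W_inn]
            · rw [ih j (by omega)]
          · split
            · rw [ih (k - j) (by omega)]
            · rw [W_inn]
        · rw [if_pos hab.le, if_pos hab, if_neg hab.not_lt, add_zero, repOut, if_neg hab.not_lt,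
            ih k (by omega)]
        · rw [if_neg (by omega), if_neg (by omega), if_neg (by omega)]
      rw [sum_congr rfl fun a ha => sum_congr rfl (h1 a ha)]
      simp only [sum_add_distrib]
      congr 1
      have h2 : ∀ a ∈ range (h + f + 1), ∑ b ∈ range (f + g + 1),
          (if a = h + b then A k h (f + 1) g else 0) = if h ≤ a then A k h (f + 1) g else 0 := by
        intro a ha
        rw [mem_range] at ha
        split_ifs with hle
        · rw [sum_eq_single (a - h)]
          · rw [if_pos (by omega)]
          · intro b _ hb
            rw [if_neg (by omega)]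
          · intro hn
            exact absurd (mem_range.mpr (by omega)) hn
        · refine sum_eq_zero fun b _ => ?_
          rw [if_neg (by omega)]
      rw [sum_congr rfl h2, ← sum_filter, sum_const, smul_eq_mul]
      congr 1
      rw [show (range (h + f + 1)).filter (fun a => h ≤ a) = Ico h (h + f + 1) by
        ext x; simp [mem_Ico, and_comm]]
      simp
      omega

end Pool.Agent.Lib.MP_1660ca_co
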