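import Pool.Agent.Lib.MP_1660ca_co.Step

/-!
# Counting good pairs of words
-/

namespace Pool.Agent.Lib.MP_1660ca_co

open Finset

/-- The pair of words `(u, v)` is good. -/
def WGood (u v : List ℕ) : Prop :=
  (∀ a b, a < b → Before u b a → Before v b a) ∧
  ∀ a b c, a < b → b < c → Before u a b → Before u b c → Before v c b → Before v b a → False

lemma before_insert {u₁ u₂ : List ℕ} {n a b : ℕ} (ha : a ≠ n) (hb : b ≠ n) :
    Before (u₁ ++ n :: u₂) a b ↔ Before (u₁ ++ u₂) a b := by
  simp only [before_append, before_cons, List.mem_cons]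
  tauto

lemma wgood_insert {u₁ u₂ v₁ v₂ : List ℕ} {n : ℕ} (hu : (u₁ ++ u₂).Nodup)
    (hv : (v₁ ++ v₂).Nodup) (hun : ∀ a ∈ u₁ ++ u₂, a < n) (hvn : ∀ a ∈ v₁ ++ v₂, a < n)
    (huv : ∀ a, a ∈ u₁ ++ u₂ ↔ a ∈ v₁ ++ v₂) :
    WGood (u₁ ++ n :: u₂) (v₁ ++ n :: v₂) ↔
      WGood (u₁ ++ u₂) (v₁ ++ v₂) ∧ Adm [] u₁ v₁ v₂ := by
  have hu' : (u₁ ++ n :: u₂).Nodup := by
    rw [List.nodup_middle, List.nodup_cons]
    exact ⟨fun h => absurd (hun n h) (lt_irrefl _), hu⟩
  have hv' : (v₁ ++ n :: v₂).Nodup := by
    rw [List.nodup_middle, List.nodup_cons]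
    exact ⟨fun h => absurd (hvn n h) (lt_irrefl _), hv⟩
  have hle : ∀ a ∈ u₁ ++ n :: u₂, a ≤ n := by
    intro a ha
    rw [List.mem_append, List.mem_cons] at ha
    rcases ha with ha | rfl | ha
    · exact (hun a (by simp [ha])).le
    · exact le_refl _
    · exact (hun a (by simp [ha])).le
  constructor
  · rintro ⟨h1, h2⟩
    refine ⟨⟨?_, ?_⟩, ?_, ?_⟩
    · intro a b hab hba
      have ha := (hun a hba.right).ne
      have hb := (hun b hba.left).ne
      have := h1 a b hab ((before_insert hb ha).2 hba)
      exact (before_insert hb ha).1 this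
    · intro a b c hab hbc h3 h4 h5 h6
      have ha := (hun a h3.left).ne
      have hb := (hun b h3.right).ne
      have hc := (hun c h4.right).ne
      exact h2 a b c hab hbc ((before_insert ha hb).2 h3) ((before_insert hb hc).2 h4)
        ((before_insert hc hb).2 h5) ((before_insert hb ha).2 h6)
    · intro a ha
      have han : a < n := hvn a (by simp [ha])
      have hau : a ∈ u₁ ++ u₂ := (huv a).2 (by simp [ha])
      rw [List.mem_append] at hau
      rw [List.nil_append]
      rcases hau with hau | hau
      · exact hau
      · exfalso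
        have h3 := h1 a n han (by
          rw [before_append, before_cons]; exact Or.inr (Or.inr (Or.inl ⟨rfl, hau⟩)))
        refine Before.asymm hv' h3 ?_
        rw [before_append]; exact Or.inr (Or.inl ⟨ha, by simp⟩)
    · intro a b h3 h4
      rw [List.nil_append] at h3
      have hne : a ≠ b := by
        rintro rfl
        exact Before.asymm (List.nodup_append'.1 hu).1 h3 h3
      have h5 : Before (u₁ ++ n :: u₂) a b := by rw [before_append]; exact Or.inl h3
      have h6 : Before (v₁ ++ n :: v₂) b a := by
        rw [before_append, before_cons]; exact Or.inr (Or.inr (Or.inr h4))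
      rcases lt_or_gt_of_ne hne with hab | hab
      · refine h2 a b n hab (hun b (by simp [h3.right])) h5 ?_ ?_ h6
        · rw [before_append]; exact Or.inr (Or.inl ⟨h3.right, by simp⟩)
        · rw [before_append, before_cons]; exact Or.inr (Or.inr (Or.inl ⟨rfl, h4.left⟩))
      · exact Before.asymm hv' (h1 b a hab h5) h6
  · rintro ⟨⟨h1, h2⟩, h3, h4⟩
    simp only [List.nil_append] at h3 h4
    have hd : ∀ a ∈ u₁, a ∉ u₂ := by
      intro a ha ha'
      exact (List.nodup_append'.1 hu).2.2 ha ha'
    have hdv : ∀ a ∈ v₁, a ∉ v₂ := by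
      intro a ha ha'
      exact (List.nodup_append'.1 hv).2.2 ha ha'
    have hn1 : n ∉ u₁ := fun h => absurd (hun n (by simp [h])) (lt_irrefl _)
    have hn2 : n ∉ u₂ := fun h => absurd (hun n (by simp [h])) (lt_irrefl _)
    have hn3 : n ∉ v₁ := fun h => absurd (hvn n (by simp [h])) (lt_irrefl _)
    have hn4 : n ∉ v₂ := fun h => absurd (hvn n (by simp [h])) (lt_irrefl _)
    refine ⟨?_, ?_⟩
    · intro a b hab hba
      have hbn := hle b hba.left
      rcases hbn.lt_or_eq with hb | rfl
      · exact (before_insert hb.ne (by omega)).2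
          (h1 a b hab ((before_insert hb.ne (by omega)).1 hba))
      · rw [before_append, before_cons] at hba
        have hau : a ∈ u₂ := by
          rcases hba with h5 | ⟨h5, _⟩ | ⟨_, h5⟩ | h5
          · exact absurd h5.left hn1
          · exact absurd h5 hn1
          · exact h5
          · exact absurd h5.left hn2
        have hav : a ∈ v₁ ++ v₂ := (huv a).1 (by simp [hau])
        rw [List.mem_append] at hav
        rcases hav with hav | hav
        · exact absurd hau (hd a (h3 a hav))
        · rw [before_append, before_cons]; exact Or.inr (Or.inr (Or.inl ⟨rfl, hav⟩))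
    · intro a b c hab hbc h5 h6 h7 h8
      have hcn := hle c h6.right
      rcases hcn.lt_or_eq with hc | rfl
      · exact h2 a b c hab hbc ((before_insert (by omega) (by omega)).1 h5)
          ((before_insert (by omega) (by omega)).1 h6) ((before_insert (by omega) (by omega)).1 h7)
          ((before_insert (by omega) (by omega)).1 h8)
      · have hb1 : b ∈ u₁ := by
          rw [before_append, before_cons] at h6
          rcases h6 with h9 | ⟨h9, _⟩ | ⟨h9, h10⟩ | h9
          · exact absurd h9.right hn1
          · exact h9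
          · exact absurd h10 hn2
          · exact absurd h9.right hn2
        have hb2 : b ∈ v₂ := by
          rw [before_append, before_cons] at h7
          rcases h7 with h9 | ⟨h9, _⟩ | ⟨_, h10⟩ | h9
          · exact absurd h9.left hn3
          · exact absurd h9 hn3
          · exact h10
          · exact absurd h9.left hn4
        have hab1 : Before u₁ a b := by
          rw [before_append, before_cons, List.mem_cons] at h5
          rcases h5 with h9 | ⟨_, h9 | h9⟩ | ⟨h9, h10⟩ | h9
          · exact h9
          · omega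
          · exact absurd h9 (hd b hb1)
          · omega
          · exact absurd h9.right (hd b hb1)
        have hab2 : Before v₂ b a := by
          rw [before_append, before_cons] at h8
          rcases h8 with h9 | ⟨h9, _⟩ | ⟨h9, h10⟩ | h9
          · exact absurd hb2 (hdv b h9.left)
          · exact absurd hb2 (hdv b h9)
          · omega
          · exact h9
        exact h4 a b hab1 hab2

/-- The words which are permutations of `0, 1, …, n - 1`. -/
def PW (n : ℕ) : Finset (List ℕ) := (List.range n).permutations.toFinset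

lemma mem_PW {n : ℕ} {l : List ℕ} : l ∈ PW n ↔ l.Perm (List.range n) := by
  rw [PW, List.mem_toFinset, List.mem_permutations]

lemma PW_lt {n : ℕ} {l : List ℕ} (h : l ∈ PW n) {a : ℕ} (ha : a ∈ l) : a < n := by
  rw [mem_PW] at h
  rw [h.mem_iff] at ha
  simpa using ha

lemma PW_nodup {n : ℕ} {l : List ℕ} (h : l ∈ PW n) : l.Nodup := by
  rw [mem_PW] at h
  rw [h.nodup_iff]
  exact List.nodup_range

lemma PW_length {n : ℕ} {l : List ℕ} (h : l ∈ PW n) : l.length = n := by
  rw [mem_PW] at h
  rw [h.length_eq]
  simp

lemma PW_not_mem {n : ℕ} {l : List ℕ} (h : l ∈ PW n) : n ∉ l :=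
  fun hm => absurd (PW_lt h hm) (lt_irrefl _)

lemma ins_mem_PW {n p : ℕ} {l : List ℕ} (h : l ∈ PW n) : ins n p l ∈ PW (n + 1) := by
  rw [mem_PW] at h ⊢
  refine (ins_perm n p l).trans ?_
  rw [List.range_succ]
  refine List.Perm.trans (h.cons n) ?_
  exact (List.perm_append_singleton n (List.range n)).symm

lemma sum_PW (n : ℕ) (F : List ℕ → ℕ) :
    ∑ l ∈ PW (n + 1), F l = ∑ l ∈ PW n, ∑ p ∈ range (l.length + 1), F (ins n p l) := by
  have e : ∑ l ∈ PW n, ∑ p ∈ range (l.length + 1), F (ins n p l) =
      ∑ x ∈ PW n ×ˢ range (n + 1), F (ins n x.2 x.1) := by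
    rw [sum_product]
    refine sum_congr rfl fun l hl => ?_
    rw [PW_length hl]
  rw [e]
  symm
  refine sum_nbij' (fun x => ins n x.2 x.1) (fun l => (l.erase n, l.idxOf n)) ?_ ?_ ?_ ?_ ?_
  · intro x hx
    rw [mem_product] at hx
    exact ins_mem_PW hx.1
  · intro l hl
    have hnd := PW_nodup hl
    have hlen := PW_length hl
    have hm : n ∈ l := by
      rw [mem_PW] at hl
      rw [hl.mem_iff]; simp
    rw [mem_product, mem_range]
    constructor
    · rw [mem_PW] at hl ⊢
      have h1 := hl.erase n
      rw [List.range_succ, List.erase_append_right _ (by simp)] at h1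
      simpa using h1
    · have := List.idxOf_lt_length_of_mem hm
      simp only
      omega
  · intro x hx
    rw [mem_product, mem_range] at hx
    have hn := PW_not_mem hx.1
    have hlen := PW_length hx.1
    have h1 : n ∉ x.1.take x.2 := fun h => hn ((List.take_sublist _ _).subset h)
    simp only [ins]
    rw [List.erase_append_right _ h1, List.erase_cons_head, List.take_append_drop,
      List.idxOf_append_of_notMem h1, List.idxOf_cons_self, List.length_take]
    ext1
    · rfl
    · simp only
      omega
  · intro l hl
    have hm : n ∈ l := by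
      rw [mem_PW] at hl
      rw [hl.mem_iff]; simp
    obtain ⟨s, t, rfl, hs⟩ := List.eq_append_cons_of_mem hm
    simp only
    rw [List.erase_append_right _ hs, List.erase_cons_head, List.idxOf_append_of_notMem hs,
      List.idxOf_cons_self, add_zero]
    simp [ins]
  · intro x hx
    rfl

open Classical in
/-- The good pairs of words with `n` letters. -/
noncomputable def GP (n : ℕ) : Finset (List ℕ × List ℕ) :=
  (PW n ×ˢ PW n).filter fun p => WGood p.1 p.2

open Classical in
lemma sum_GP (n : ℕ) (Ψ : List ℕ → List ℕ → ℕ) :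
    ∑ x ∈ GP (n + 1), Ψ x.1 x.2 = ∑ x ∈ GP n, T n [] x.1 x.2 Ψ := by
  rw [GP, GP, sum_filter, sum_filter, sum_product, sum_product, sum_PW]
  refine sum_congr rfl fun u hu => ?_
  have h1 : ∀ p ∈ range (u.length + 1), ∑ v ∈ PW (n + 1),
      (if WGood (ins n p u) v then Ψ (ins n p u) v else 0) =
      ∑ v ∈ PW n, ∑ q ∈ range (v.length + 1),
      if WGood (ins n p u) (ins n q v) then Ψ (ins n p u) (ins n q v) else 0 := by
    intro p _
    exact sum_PW n fun v => if WGood (ins n p u) v then Ψ (ins n p u) v else 0
  rw [sum_congr rfl h1, sum_comm]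
  refine sum_congr rfl fun v hv => ?_
  have h2 : ∀ p ∈ range (u.length + 1), ∀ q ∈ range (v.length + 1),
      (if WGood (ins n p u) (ins n q v) then Ψ (ins n p u) (ins n q v) else 0) =
      if WGood u v then (if Adm [] (u.take p) (v.take q) (v.drop q) then
        Ψ (ins n p u) (ins n q v) else 0) else 0 := by
    intro p _ q _
    have h3 : WGood (ins n p u) (ins n q v) ↔
        WGood u v ∧ Adm [] (u.take p) (v.take q) (v.drop q) := by
      have h4 := wgood_insert (u₁ := u.take p) (u₂ := u.drop p) (v₁ := v.take q)
        (v₂ := v.drop q) (n := n)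
        (by rw [List.take_append_drop]; exact PW_nodup hu)
        (by rw [List.take_append_drop]; exact PW_nodup hv)
        (by rw [List.take_append_drop]; exact fun a ha => PW_lt hu ha)
        (by rw [List.take_append_drop]; exact fun a ha => PW_lt hv ha)
        (by
          rw [List.take_append_drop, List.take_append_drop]
          intro a
          rw [mem_PW] at hu hv
          rw [hu.mem_iff, hv.mem_iff])
      rw [List.take_append_drop, List.take_append_drop] at h4
      exact h4
    simp only [h3]
    by_cases h5 : WGood u v <;> by_cases h6 : Adm [] (u.take p) (v.take q) (v.drop q) <;>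
      simp [h5, h6]
  rw [sum_congr rfl fun p hp => sum_congr rfl (h2 p hp)]
  split_ifs with h5
  · rfl
  · simp

theorem card_GP (n : ℕ) : (GP n).card = A n 0 0 0 := by
  classical
  have h : ∀ n k, ∑ x ∈ GP n, E k n x.1 x.2 = E (k + n) 0 [] [] := by
    intro n
    induction n with
    | zero =>
      intro k
      have : GP 0 = {([], [])} := by
        ext x
        rw [GP, mem_filter, mem_product, mem_PW, mem_PW, mem_singleton]
        simp only [List.range_zero, List.perm_nil]
        constructor
        · rintro ⟨⟨h1, h2⟩, _⟩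
          exact Prod.ext h1 h2
        · rintro rfl
          exact ⟨⟨rfl, rfl⟩, fun a b _ h => absurd h (before_nil _ _),
            fun a b c _ _ h => absurd h (before_nil _ _)⟩
      rw [this, sum_singleton, add_zero]
    | succ n ih =>
      intro k
      rw [sum_GP n (E k (n + 1)), show k + (n + 1) = (k + 1) + n by ring, ← ih]
      rfl
  rw [← E_eq_A, ← zero_add n, ← h n 0, card_eq_sum_ones, zero_add]
  rfl

end Pool.Agent.Lib.MP_1660ca_co
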