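import Mathlib

/-!
# Distributive intervals in the weak order: definitions

Definitions used in the statement: the inversion set, the weak order, intervals, the number
`d n` of distributive intervals, and the arrays `B`, `A` of the recurrence.
-/

namespace Pool.Agent.Lib.MP_1660ca_co

open Finset

/-- The inversion set of `w`, seen as the word `w(1) w(2) ⋯ w(n)`: the pairs `(a, b)` of letters
with `a < b` such that `b` occurs to the left of `a`. (`w.symm a` is the position of the
letter `a`.) -/
def Inv {n : ℕ} (w : Equiv.Perm (Fin n)) : Set (Fin n × Fin n) :=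
  {p | p.1 < p.2 ∧ w.symm p.2 < w.symm p.1}

/-- The weak order: `u ≤ v` iff `Inv u ⊆ Inv v`. -/
def WeakLE {n : ℕ} (u v : Equiv.Perm (Fin n)) : Prop := Inv u ⊆ Inv v

/-- The interval `[u, v]` of the weak order. -/
def Interval {n : ℕ} (u v : Equiv.Perm (Fin n)) : Type :=
  {w : Equiv.Perm (Fin n) // WeakLE u w ∧ WeakLE w v}

/-- The order induced by the weak order on the interval `[u, v]`. -/
def Interval.le {n : ℕ} {u v : Equiv.Perm (Fin n)} (x y : Interval u v) : Prop :=
  WeakLE x.1 y.1

/-- `r` is the order relation of a distributive lattice on the type `α`. -/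
def IsDistributiveLattice {α : Type} (r : α → α → Prop) : Prop :=
  ∃ _inst : DistribLattice α, ∀ x y : α, r x y ↔ x ≤ y

/-- The interval `[u, v]` with the induced order is a distributive lattice. -/
def DistributiveInterval {n : ℕ} (u v : Equiv.Perm (Fin n)) : Prop :=
  IsDistributiveLattice (Interval.le (u := u) (v := v))

/-- `d n`: the number of pairs `u ≤ v` of permutations of `n` letters such that `[u, v]` is a
distributive lattice. -/
noncomputable def d (n : ℕ) : ℕ :=
  Nat.card {p : Equiv.Perm (Fin n) × Equiv.Perm (Fin n) //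
    WeakLE p.1 p.2 ∧ DistributiveInterval p.1 p.2}

/-- The explicit array `B k h g = k! * C(h + k, k) * C(g + k, k)`. -/
def B (k h g : ℕ) : ℕ := k.factorial * (h + k).choose k * (g + k).choose k

/-- `IsSolution A`: the array `A k h f g` of natural numbers satisfies the initial condition
`A 0 h f g = 1` and the recurrence
`A (k+1) h f g = (f+1) * A k h (f+1) g + ∑_{a ≤ h+f, b ≤ f+g, a < h+b} ∑_{j ≤ k} C(k,j) * L * R`,
where `L` is `B j a b` if `a < h` and `A j h (a-h) (h+b-a)` if `a ≥ h`, and `R` is
`A (k-j) (h+b-a) (f-b) g` if `b ≤ f` and `B (k-j) (h+f-a) (f+g-b)` if `b > f`.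
It clearly determines `A`. -/
def IsSolution (A : ℕ → ℕ → ℕ → ℕ → ℕ) : Prop :=
  (∀ h f g, A 0 h f g = 1) ∧
  ∀ k h f g, A (k + 1) h f g =
    (f + 1) * A k h (f + 1) g +
      ∑ a ∈ range (h + f + 1), ∑ b ∈ range (f + g + 1),
        if a < h + b then
          ∑ j ∈ range (k + 1), k.choose j *
            (if a < h then B j a b else A j h (a - h) (h + b - a)) *
            (if b ≤ f then A (k - j) (h + b - a) (f - b) g
              else B (k - j) (h + f - a) (f + g - b))
        else 0

end Pool.Agent.Lib.MP_1660ca_co
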