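import Pool.Agent.Lib.MP_1660ca_co.Defs

/-!
# Distributive intervals
-/

namespace Pool.Agent.Lib.MP_1660ca_co

open Finset

variable {n : ℕ}

/-- `w` contains the pattern `321`. -/
def Contains321 (w : Equiv.Perm (Fin n)) : Prop :=
  ∃ i j k : Fin n, i < j ∧ j < k ∧ w k < w j ∧ w j < w i

/-- A bad triple of letters for the pair `(u, v)`. -/
def Bad (u v : Equiv.Perm (Fin n)) : Prop :=
  ∃ a b c : Fin n, a < b ∧ b < c ∧ u.symm a < u.symm b ∧ u.symm b < u.symm c ∧
    v.symm c < v.symm b ∧ v.symm b < v.symm a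

lemma mem_Inv {w : Equiv.Perm (Fin n)} {a b : Fin n} :
    (a, b) ∈ Inv w ↔ a < b ∧ w.symm b < w.symm a := Iff.rfl

lemma not_mem_Inv {w : Equiv.Perm (Fin n)} {a b : Fin n} (hab : a < b) :
    (a, b) ∉ Inv w ↔ w.symm a < w.symm b := by
  rw [mem_Inv]
  have hne : w.symm a ≠ w.symm b := fun h => hab.ne (w.symm.injective h)
  constructor
  · intro h
    rcases lt_trichotomy (w.symm a) (w.symm b) with h1 | h1 | h1
    · exact h1
    · exact absurd h1 hne
    · exact absurd ⟨hab, h1⟩ h
  · rintro h1 ⟨_, h2⟩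
    exact absurd h1 h2.not_gt

/-- A permutation is determined by its inversion set. -/
lemma Inv_injective : Function.Injective (Inv (n := n)) := by
  intro w w' h
  have h1 : ∀ a b : Fin n, w.symm a < w.symm b ↔ w'.symm a < w'.symm b := by
    intro a b
    rcases lt_trichotomy a b with hab | rfl | hab
    · rw [← not_mem_Inv hab, ← not_mem_Inv hab, h]
    · simp
    · have h2 : (b, a) ∈ Inv w ↔ (b, a) ∈ Inv w' := by rw [h]
      rw [mem_Inv, mem_Inv] at h2
      tauto
  have h2 : ∀ a : Fin n, (w.symm a : ℕ) = (univ.filter fun b => w.symm b < w.symm a).card := by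
    intro a
    have : (univ.filter fun b => w.symm b < w.symm a) = (Iio (w.symm a)).map w.toEmbedding := by
      ext b
      simp only [mem_filter, mem_univ, true_and, mem_map, mem_Iio, Equiv.coe_toEmbedding]
      constructor
      · intro hb; exact ⟨w.symm b, hb, by simp⟩
      · rintro ⟨i, hi, rfl⟩; simpa using hi
    rw [this, card_map, Fin.card_Iio]
  have h3 : ∀ a : Fin n, (w'.symm a : ℕ) = (univ.filter fun b => w'.symm b < w'.symm a).card := by
    intro a
    have : (univ.filter fun b => w'.symm b < w'.symm a) = (Iio (w'.symm a)).map w'.toEmbedding := by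
      ext b
      simp only [mem_filter, mem_univ, true_and, mem_map, mem_Iio, Equiv.coe_toEmbedding]
      constructor
      · intro hb; exact ⟨w'.symm b, hb, by simp⟩
      · rintro ⟨i, hi, rfl⟩; simpa using hi
    rw [this, card_map, Fin.card_Iio]
  have h4 : w.symm = w'.symm := by
    ext a
    rw [h2, h3]
    simp only [h1]
  have := congrArg Equiv.symm h4
  simpa using this

/-- Every set of pairs which is closed and co-closed is an inversion set. -/
lemma exists_perm (E : Set (Fin n × Fin n)) (h0 : ∀ a b, (a, b) ∈ E → a < b)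
    (ht : ∀ a b c, (a, b) ∈ E → (b, c) ∈ E → (a, c) ∈ E)
    (hc : ∀ a b c, a < b → b < c → (a, c) ∈ E → (a, b) ∈ E ∨ (b, c) ∈ E) :
    ∃ w : Equiv.Perm (Fin n), Inv w = E := by
  classical
  let r : Fin n → Fin n → Prop := fun a b => (a < b ∧ (a, b) ∉ E) ∨ (b < a ∧ (b, a) ∈ E)
  have hirr : ∀ a, ¬ r a a := by
    rintro a (⟨h, _⟩ | ⟨h, _⟩) <;> exact lt_irrefl _ h
  have htri : ∀ a b, a ≠ b → r a b ∨ r b a := by
    intro a b hab
    rcases lt_or_gt_of_ne hab with h | h
    · by_cases hE : (a, b) ∈ E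
      · exact Or.inr (Or.inr ⟨h, hE⟩)
      · exact Or.inl (Or.inl ⟨h, hE⟩)
    · by_cases hE : (b, a) ∈ E
      · exact Or.inl (Or.inr ⟨h, hE⟩)
      · exact Or.inr (Or.inl ⟨h, hE⟩)
  have hasymm : ∀ a b, r a b → ¬ r b a := by
    rintro a b (⟨h1, h2⟩ | ⟨h1, h2⟩) (⟨h3, h4⟩ | ⟨h3, h4⟩)
    · exact absurd h1 h3.not_gt
    · exact h2 h4
    · exact h4 h2
    · exact absurd h1 h3.not_gt
  have cyc : ∀ a b c, a < b → a < c → r a b → r b c → r c a → False := by
    intro a b c hab hac h1 h2 h3
    have h1' : (a, b) ∉ E := by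
      rcases h1 with ⟨_, h⟩ | ⟨h, _⟩
      · exact h
      · exact absurd h hab.not_gt
    have h3' : (a, c) ∈ E := by
      rcases h3 with ⟨h, _⟩ | ⟨_, h⟩
      · exact absurd hac h.not_gt
      · exact h
    rcases h2 with ⟨h, h'⟩ | ⟨h, h'⟩
    · rcases hc a b c hab h h3' with h4 | h4
      · exact h1' h4
      · exact h' h4
    · exact h1' (ht a c b h3' h')
  have htrans : ∀ a b c, r a b → r b c → r a c := by
    intro a b c hab hbc
    by_contra hac
    have hne : a ≠ c := by
      rintro rfl
      exact hasymm a b hab hbc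
    have hne1 : a ≠ b := by
      rintro rfl
      exact hirr _ hab
    have hne2 : b ≠ c := by
      rintro rfl
      exact hirr _ hbc
    have hca : r c a := (htri a c hne).resolve_left hac
    rcases lt_or_gt_of_ne hne with h1 | h1 <;> rcases lt_or_gt_of_ne hne1 with h2 | h2 <;>
      rcases lt_or_gt_of_ne hne2 with h3 | h3
    · exact cyc a b c h2 h1 hab hbc hca
    · exact cyc a b c h2 h1 hab hbc hca
    · exact cyc b c a h3 h2 hbc hca hab
    · exact absurd (h1.trans h3) h2.not_gt
    · exact absurd (h2.trans h3) h1.not_gt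
    · exact cyc c a b h1 h3 hca hab hbc
    · exact cyc b c a h3 h2 hbc hca hab
    · exact cyc c a b h1 h3 hca hab hbc
  let pos : Fin n → Fin n := fun a => ⟨(univ.filter fun b => r b a).card, by
    have h1 : (univ.filter fun b => r b a) ⊂ univ := by
      rw [ssubset_univ_iff]
      intro h
      have : a ∈ (univ.filter fun b => r b a) := by rw [h]; exact mem_univ a
      rw [mem_filter] at this
      exact hirr a this.2
    have := card_lt_card h1
    simpa using this⟩
  have hpos : ∀ a b, r a b → pos a < pos b := by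
    intro a b hab
    change (univ.filter fun c => r c a).card < (univ.filter fun c => r c b).card
    refine card_lt_card ?_
    rw [ssubset_iff_of_subset]
    · exact ⟨a, by simp [hab], by simp [hirr]⟩
    · intro c hc'
      rw [mem_filter] at hc' ⊢
      exact ⟨mem_univ _, htrans c a b hc'.2 hab⟩
  have hinj : Function.Injective pos := by
    intro a b hab
    by_contra hne
    rcases htri a b hne with h | h
    · exact absurd hab (hpos a b h).ne
    · exact absurd hab (hpos b a h).ne'
  have hbij : Function.Bijective pos := Finite.injective_iff_bijective.1 hinj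
  refine ⟨(Equiv.ofBijective pos hbij).symm, ?_⟩
  ext ⟨a, b⟩
  rw [mem_Inv, Equiv.symm_symm, Equiv.ofBijective_apply, Equiv.ofBijective_apply]
  constructor
  · rintro ⟨h1, h2⟩
    by_contra hE
    exact absurd (hpos a b (Or.inl ⟨h1, hE⟩)) h2.not_gt
  · intro hE
    have h1 := h0 a b hE
    exact ⟨h1, hpos b a (Or.inr ⟨h1, hE⟩)⟩

lemma Inv_trans {w : Equiv.Perm (Fin n)} {a b c : Fin n} (h1 : (a, b) ∈ Inv w)
    (h2 : (b, c) ∈ Inv w) : (a, c) ∈ Inv w := by
  rw [mem_Inv] at *
  exact ⟨h1.1.trans h2.1, h2.2.trans h1.2⟩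

lemma Inv_cotrans {w : Equiv.Perm (Fin n)} {a b c : Fin n} (hab : a < b) (hbc : b < c)
    (h : (a, c) ∈ Inv w) : (a, b) ∈ Inv w ∨ (b, c) ∈ Inv w := by
  by_contra hn
  rw [not_or] at hn
  have h1 := (not_mem_Inv hab).1 hn.1
  have h2 := (not_mem_Inv hbc).1 hn.2
  exact absurd (h1.trans h2) h.2.not_gt

/-- Without bad triples, the interval is a distributive lattice. -/
theorem distributive_of_not_bad {u v : Equiv.Perm (Fin n)} (h : ¬ Bad u v) :
    DistributiveInterval u v := by
  classical
  have key : ∀ a b c : Fin n, (a, b) ∈ Inv v → (b, c) ∈ Inv v → (a, b) ∉ Inv u →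
      (b, c) ∉ Inv u → False := by
    intro a b c h1 h2 h3 h4
    rw [not_mem_Inv h1.1] at h3
    rw [not_mem_Inv h2.1] at h4
    exact h ⟨a, b, c, h1.1, h2.1, h3, h4, h2.2, h1.2⟩
  have hsup : ∀ x y : Interval u v, ∃ z : Interval u v, Inv z.1 = Inv x.1 ∪ Inv y.1 := by
    intro x y
    obtain ⟨w, hw⟩ := exists_perm (Inv x.1 ∪ Inv y.1) (by
      rintro a b (h1 | h1) <;> exact h1.1) (by
      rintro a b c (h1 | h1) (h2 | h2)
      · exact Or.inl (Inv_trans h1 h2)
      · by_cases h3 : (a, b) ∈ Inv y.1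
        · exact Or.inr (Inv_trans h3 h2)
        · by_cases h4 : (b, c) ∈ Inv x.1
          · exact Or.inl (Inv_trans h1 h4)
          · exact (key a b c (x.2.2 h1) (y.2.2 h2) (fun h5 => h3 (y.2.1 h5))
              (fun h5 => h4 (x.2.1 h5))).elim
      · by_cases h3 : (a, b) ∈ Inv x.1
        · exact Or.inl (Inv_trans h3 h2)
        · by_cases h4 : (b, c) ∈ Inv y.1
          · exact Or.inr (Inv_trans h1 h4)
          · exact (key a b c (y.2.2 h1) (x.2.2 h2) (fun h5 => h3 (x.2.1 h5))
              (fun h5 => h4 (y.2.1 h5))).elim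
      · exact Or.inr (Inv_trans h1 h2)) (by
      rintro a b c hab hbc (h1 | h1)
      · rcases Inv_cotrans hab hbc h1 with h2 | h2
        · exact Or.inl (Or.inl h2)
        · exact Or.inr (Or.inl h2)
      · rcases Inv_cotrans hab hbc h1 with h2 | h2
        · exact Or.inl (Or.inr h2)
        · exact Or.inr (Or.inr h2))
    refine ⟨⟨w, ?_, ?_⟩, hw⟩
    · rw [WeakLE, hw]
      exact fun p hp => Or.inl (x.2.1 hp)
    · rw [WeakLE, hw]
      rintro p (hp | hp)
      · exact x.2.2 hp
      · exact y.2.2 hp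
  have hinf : ∀ x y : Interval u v, ∃ z : Interval u v, Inv z.1 = Inv x.1 ∩ Inv y.1 := by
    intro x y
    obtain ⟨w, hw⟩ := exists_perm (Inv x.1 ∩ Inv y.1) (by
      rintro a b ⟨h1, _⟩; exact h1.1) (by
      rintro a b c ⟨h1, h2⟩ ⟨h3, h4⟩
      exact ⟨Inv_trans h1 h3, Inv_trans h2 h4⟩) (by
      rintro a b c hab hbc ⟨h1, h2⟩
      by_contra hn
      rw [not_or, Set.mem_inter_iff, Set.mem_inter_iff, not_and_or, not_and_or] at hn
      have hv : ∀ p, p ∈ Inv x.1 ∨ p ∈ Inv y.1 → p ∈ Inv v := by
        rintro p (hp | hp)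
        · exact x.2.2 hp
        · exact y.2.2 hp
      have hu : ∀ p, p ∉ Inv x.1 ∨ p ∉ Inv y.1 → p ∉ Inv u := by
        rintro p (hp | hp) hpu
        · exact hp (x.2.1 hpu)
        · exact hp (y.2.1 hpu)
      have e1 := hu _ hn.1
      have e2 := hu _ hn.2
      refine key a b c (hv _ ?_) (hv _ ?_) e1 e2
      · rcases hn.2 with h3 | h3
        · exact Or.inl ((Inv_cotrans hab hbc h1).resolve_right h3)
        · exact Or.inr ((Inv_cotrans hab hbc h2).resolve_right h3)
      · rcases hn.1 with h3 | h3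
        · exact Or.inl ((Inv_cotrans hab hbc h1).resolve_left h3)
        · exact Or.inr ((Inv_cotrans hab hbc h2).resolve_left h3))
    refine ⟨⟨w, ?_, ?_⟩, hw⟩
    · rw [WeakLE, hw]
      exact fun p hp => ⟨x.2.1 hp, y.2.1 hp⟩
    · rw [WeakLE, hw]
      exact fun p hp => x.2.2 hp.1
  choose sup hsup using hsup
  choose inf hinf using hinf
  let _ : LE (Interval u v) := ⟨fun x y => Inv x.1 ≤ Inv y.1⟩
  let _ : LT (Interval u v) := ⟨fun x y => Inv x.1 < Inv y.1⟩
  let _ : Max (Interval u v) := ⟨sup⟩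
  let _ : Min (Interval u v) := ⟨inf⟩
  refine ⟨Function.Injective.distribLattice (fun x : Interval u v => Inv x.1)
    (fun x y hxy => Subtype.ext (Inv_injective hxy)) Iff.rfl Iff.rfl hsup hinf, ?_⟩
  intro x y
  exact Iff.rfl

/-- Swapping two adjacent letters. -/
lemma adj_swap {x : Equiv.Perm (Fin n)} {a b : Fin n} (hab : a < b)
    (h1 : x.symm a < x.symm b) (hadj : ∀ d, x.symm a < x.symm d → ¬ x.symm d < x.symm b) :
    ∃ y : Equiv.Perm (Fin n), Inv y = Inv x ∪ {(a, b)} ∧
      ∀ c d, (c ≠ a ∨ d ≠ b) → x.symm c < x.symm d → y.symm c < y.symm d := by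
  refine ⟨x * Equiv.swap (x.symm a) (x.symm b), ?_⟩
  have hy : ∀ c, (x * Equiv.swap (x.symm a) (x.symm b)).symm c =
      if c = a then x.symm b else if c = b then x.symm a else x.symm c := by
    intro c
    rw [Equiv.Perm.mul_def, Equiv.symm_trans_apply, Equiv.symm_swap, Equiv.swap_apply_def]
    by_cases hca : c = a
    · simp [hca]
    · rw [if_neg (fun h => hca (x.symm.injective h)), if_neg hca]
      by_cases hcb : c = b
      · simp [hcb]
      · rw [if_neg (fun h => hcb (x.symm.injective h)), if_neg hcb]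
  have hadj' : ∀ d, d ≠ a → d ≠ b → (x.symm d < x.symm a ∨ x.symm b < x.symm d) := by
    intro d hda hdb
    have e1 : x.symm d ≠ x.symm a := fun h => hda (x.symm.injective h)
    have e2 : x.symm d ≠ x.symm b := fun h => hdb (x.symm.injective h)
    rcases lt_or_gt_of_ne e1 with h | h
    · exact Or.inl h
    · rcases lt_or_gt_of_ne e2 with h' | h'
      · exact absurd h' (hadj d h)
      · exact Or.inr h'
  have hord : ∀ c d, (c ≠ a ∨ d ≠ b) → x.symm c < x.symm d →
      (x * Equiv.swap (x.symm a) (x.symm b)).symm c <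
      (x * Equiv.swap (x.symm a) (x.symm b)).symm d := by
    intro c d hcd hlt
    rw [hy, hy]
    have hne : c ≠ d := by rintro rfl; exact lt_irrefl _ hlt
    by_cases hca : c = a
    · subst hca
      have hdb : d ≠ b := by tauto
      have hda : d ≠ c := hne.symm
      rw [if_pos rfl, if_neg hda, if_neg hdb]
      rcases hadj' d hda hdb with h | h
      · exact absurd hlt h.not_gt
      · exact h
    · rw [if_neg hca]
      by_cases hcb : c = b
      · subst hcb
        rw [if_pos rfl]
        by_cases hda : d = a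
        · subst hda
          exact absurd hlt h1.not_gt
        · rw [if_neg hda, if_neg hne.symm]
          exact h1.trans hlt
      · rw [if_neg hcb]
        by_cases hda : d = a
        · subst hda
          rw [if_pos rfl]
          exact hlt.trans h1
        · rw [if_neg hda]
          by_cases hdb : d = b
          · subst hdb
            rw [if_pos rfl]
            rcases hadj' c hca hcb with h | h
            · exact h
            · exact absurd hlt h.not_gt
          · rw [if_neg hdb]
            exact hlt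
  refine ⟨?_, hord⟩
  ext ⟨c, d⟩
  rw [Set.mem_union, Set.mem_singleton_iff, Prod.mk.injEq]
  constructor
  · rintro ⟨hcd, hlt⟩
    change c < d at hcd
    change (x * Equiv.swap (x.symm a) (x.symm b)).symm d <
      (x * Equiv.swap (x.symm a) (x.symm b)).symm c at hlt
    by_contra hn
    rw [not_or, not_and_or] at hn
    have h2 := (not_mem_Inv hcd).1 hn.1
    exact absurd (hord c d hn.2 h2) hlt.not_gt
  · rintro (h | ⟨rfl, rfl⟩)
    · refine ⟨h.1, hord d c ?_ h.2⟩
      by_contra hn
      rw [not_or, not_not, not_not] at hn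
      obtain ⟨rfl, rfl⟩ := hn
      exact absurd hab h.1.not_gt
    · refine ⟨hab, ?_⟩
      simp only
      rw [hy, hy, if_neg hab.ne', if_pos rfl, if_pos rfl]
      exact h1

lemma descent_exists {x v : Equiv.Perm (Fin n)} {a b : Fin n} (h1 : x.symm a < x.symm b)
    (h2 : v.symm b < v.symm a) :
    ∃ l l' : Fin n, (x.symm l : ℕ) + 1 = x.symm l' ∧ x.symm a ≤ x.symm l ∧
      x.symm l' ≤ x.symm b ∧ v.symm l' < v.symm l := by
  by_contra hn
  have key : ∀ k : ℕ, ∀ hk : (x.symm a : ℕ) + k ≤ x.symm b,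
      v.symm a ≤ v.symm (x ⟨(x.symm a : ℕ) + k, lt_of_le_of_lt hk (x.symm b).2⟩) := by
    intro k
    induction k with
    | zero =>
      intro hk
      simp
    | succ k ih =>
      intro hk
      refine (ih (by omega)).trans ?_
      by_contra hlt
      rw [not_le] at hlt
      refine hn ⟨_, _, ?_, ?_, ?_, hlt⟩
      · simp; omega
      · simp only [Equiv.symm_apply_apply, Fin.le_def]; omega
      · simp only [Equiv.symm_apply_apply, Fin.le_def]; omega
  have h3 := key ((x.symm b : ℕ) - x.symm a) (by rw [Fin.lt_def] at h1; omega)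
  have h4 : (⟨(x.symm a : ℕ) + ((x.symm b : ℕ) - x.symm a), by
      rw [Fin.lt_def] at h1; have := (x.symm b).2; omega⟩ : Fin n) = x.symm b := by
    ext; simp; rw [Fin.lt_def] at h1; omega
  rw [h4, Equiv.apply_symm_apply] at h3
  exact absurd h2 h3.not_gt

/-- If there is a bad triple, the interval is not distributive. -/
theorem not_distributive_of_bad {u v : Equiv.Perm (Fin n)} (huv : WeakLE u v) (h : Bad u v) :
    ¬ DistributiveInterval u v := by
  classical
  let S : Finset (Equiv.Perm (Fin n)) := univ.filter fun x => WeakLE u x ∧ WeakLE x v ∧ Bad x v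
  have hS : S.Nonempty := ⟨u, by
    rw [mem_filter]
    exact ⟨mem_univ _, fun p hp => hp, huv, h⟩⟩
  obtain ⟨x, hxS, hmax⟩ := exists_max_image S (fun x => (Inv x).ncard) hS
  rw [mem_filter] at hxS
  obtain ⟨-, hux, hxv, a, b, c, hab, hbc, h1, h2, h3, h4⟩ := hxS
  -- swapping an adjacent pair
  have hswap : ∀ l l' : Fin n, (x.symm l : ℕ) + 1 = x.symm l' → v.symm l' < v.symm l →
      (l = a ∧ l' = b) ∨ (l = b ∧ l' = c) := by
    intro l l' hl hl'
    have hlt : x.symm l < x.symm l' := by rw [Fin.lt_def]; omega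
    have hll : l < l' := by
      rcases lt_trichotomy l l' with h | h | h
      · exact h
      · subst h; exact absurd hlt (lt_irrefl _)
      · have : (l', l) ∈ Inv v := hxv ⟨h, hlt⟩
        exact absurd hl' this.2.not_gt
    obtain ⟨y, hy, hyo⟩ := adj_swap hll hlt (by
      intro d hd hd'
      rw [Fin.lt_def] at hd hd'
      omega)
    by_contra hn
    rw [not_or, not_and_or, not_and_or] at hn
    have hbad : Bad y v := ⟨a, b, c, hab, hbc,
      hyo a b (by tauto) h1, hyo b c (by tauto) h2, h3, h4⟩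
    have hyS : y ∈ S := by
      rw [mem_filter]
      refine ⟨mem_univ _, ?_, ?_, hbad⟩
      · rw [WeakLE, hy]; exact fun p hp => Or.inl (hux hp)
      · rw [WeakLE, hy]
        rintro p (hp | hp)
        · exact hxv hp
        · rw [Set.mem_singleton_iff] at hp
          subst hp
          exact ⟨hll, hl'⟩
    have h5 := hmax y hyS
    have h6 : (l, l') ∉ Inv x := (not_mem_Inv hll).2 hlt
    rw [hy, Set.union_singleton, Set.ncard_insert_of_notMem h6 (Set.toFinite _)] at h5
    omega
  have hadj1 : (x.symm a : ℕ) + 1 = x.symm b := by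
    obtain ⟨l, l', e1, e2, e3, e4⟩ := descent_exists h1 h4
    rcases hswap l l' e1 e4 with ⟨rfl, rfl⟩ | ⟨rfl, rfl⟩
    · exact e1
    · exact absurd h2 e3.not_gt
  have hadj2 : (x.symm b : ℕ) + 1 = x.symm c := by
    obtain ⟨l, l', e1, e2, e3, e4⟩ := descent_exists h2 h3
    rcases hswap l l' e1 e4 with ⟨rfl, rfl⟩ | ⟨rfl, rfl⟩
    · exact absurd h1 e2.not_gt
    · exact e1
  obtain ⟨p, hp, hpo⟩ := adj_swap hab h1 (by
      intro d hd hd'
      rw [Fin.lt_def] at hd hd'
      omega)
  obtain ⟨r, hr, hro⟩ := adj_swap hbc h2 (by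
      intro d hd hd'
      rw [Fin.lt_def] at hd hd'
      omega)
  have hpac : p.symm a < p.symm c := hpo a c (Or.inr hbc.ne') (h1.trans h2)
  have hpba : p.symm b < p.symm a := by
    have : (a, b) ∈ Inv p := by rw [hp]; simp
    exact this.2
  obtain ⟨q, hq, hqo⟩ := adj_swap (hab.trans hbc) hpac (by
      intro d hd hd'
      have hda : d ≠ a := by rintro rfl; exact lt_irrefl _ hd
      have hdc : d ≠ c := by rintro rfl; exact lt_irrefl _ hd'
      have hdb : d ≠ b := by rintro rfl; exact absurd hpba hd.not_gt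
      have e1 : x.symm a < x.symm d := by
        rcases lt_trichotomy (x.symm a) (x.symm d) with h | h | h
        · exact h
        · exact absurd (x.symm.injective h).symm hda
        · exact absurd (hpo d a (Or.inl hda) h) hd.not_gt
      have e2 : x.symm d < x.symm c := by
        rcases lt_trichotomy (x.symm d) (x.symm c) with h | h | h
        · exact h
        · exact absurd (x.symm.injective h) hdc
        · exact absurd (hpo c d (Or.inl (hab.trans hbc).ne') h) hd'.not_gt
      rw [Fin.lt_def] at e1 e2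
      exact hdb (x.symm.injective (Fin.ext (by omega))))
  have vab : (a, b) ∈ Inv v := ⟨hab, h4⟩
  have vbc : (b, c) ∈ Inv v := ⟨hbc, h3⟩
  have vac : (a, c) ∈ Inv v := ⟨hab.trans hbc, h3.trans h4⟩
  have pI : WeakLE u p ∧ WeakLE p v := by
    refine ⟨?_, ?_⟩
    · rw [WeakLE, hp]; exact fun z hz => Or.inl (hux hz)
    · rw [WeakLE, hp]
      rintro z (hz | hz)
      · exact hxv hz
      · rw [Set.mem_singleton_iff] at hz; subst hz; exact vab
  have rI : WeakLE u r ∧ WeakLE r v := by
    refine ⟨?_, ?_⟩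
    · rw [WeakLE, hr]; exact fun z hz => Or.inl (hux hz)
    · rw [WeakLE, hr]
      rintro z (hz | hz)
      · exact hxv hz
      · rw [Set.mem_singleton_iff] at hz; subst hz; exact vbc
  have qI : WeakLE u q ∧ WeakLE q v := by
    refine ⟨?_, ?_⟩
    · rw [WeakLE, hq]; exact fun z hz => Or.inl (pI.1 hz)
    · rw [WeakLE, hq]
      rintro z (hz | hz)
      · exact pI.2 hz
      · rw [Set.mem_singleton_iff] at hz; subst hz; exact vac
  rintro ⟨inst, hle⟩
  let P : Interval u v := ⟨p, pI⟩
  let Q : Interval u v := ⟨q, qI⟩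
  let R : Interval u v := ⟨r, rI⟩
  have hQ : Q ≤ P ⊔ R := by
    rw [← hle]
    have e1 : Inv p ⊆ Inv (P ⊔ R).1 := (hle P (P ⊔ R)).2 le_sup_left
    have e2 : Inv r ⊆ Inv (P ⊔ R).1 := (hle R (P ⊔ R)).2 le_sup_right
    change Inv q ⊆ Inv (P ⊔ R).1
    rw [hq]
    rintro z (hz | hz)
    · exact e1 hz
    · rw [Set.mem_singleton_iff] at hz
      subst hz
      refine Inv_trans (e1 ?_) (e2 ?_) (b := b)
      · rw [hp]; simp
      · rw [hr]; simp
  have hQP : Q ⊓ R ≤ P := by
    rw [← hle]
    have e1 : Inv (Q ⊓ R).1 ⊆ Inv q := (hle (Q ⊓ R) Q).2 inf_le_left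
    have e2 : Inv (Q ⊓ R).1 ⊆ Inv r := (hle (Q ⊓ R) R).2 inf_le_right
    change Inv (Q ⊓ R).1 ⊆ Inv p
    intro z hz
    have f1 := e1 hz
    have f2 := e2 hz
    rw [hr] at f2
    rcases f2 with f2 | f2
    · rw [hp]; exact Or.inl f2
    · rw [Set.mem_singleton_iff] at f2
      subst f2
      rw [hq] at f1
      rcases f1 with f1 | f1
      · exact f1
      · rw [Set.mem_singleton_iff, Prod.mk.injEq] at f1
        exact absurd f1.1 hab.ne'
  have hfin : Q ≤ P := by
    have e1 : Q = Q ⊓ (P ⊔ R) := (inf_eq_left.2 hQ).symm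
    rw [inf_sup_left] at e1
    rw [e1]
    exact sup_le inf_le_right hQP
  rw [← hle] at hfin
  have hac : (a, c) ∈ Inv p := hfin (show (a, c) ∈ Inv q by rw [hq]; simp)
  exact absurd hac.2 hpac.not_gt

theorem distributive_iff {u v : Equiv.Perm (Fin n)} (huv : WeakLE u v) :
    DistributiveInterval u v ↔ ¬ Bad u v :=
  ⟨fun h hb => not_distributive_of_bad huv hb h, distributive_of_not_bad⟩

/-- Bad triples correspond to occurrences of the pattern `321` in `u⁻¹ v`. -/
theorem bad_iff {u v : Equiv.Perm (Fin n)} (huv : WeakLE u v) :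
    Bad u v ↔ Contains321 (u⁻¹ * v) := by
  constructor
  · rintro ⟨a, b, c, _, _, h1, h2, h3, h4⟩
    refine ⟨v.symm c, v.symm b, v.symm a, h3, h4, ?_, ?_⟩ <;>
    · simp only [Equiv.Perm.mul_apply, Equiv.apply_symm_apply]
      assumption
  · rintro ⟨i, j, k, hij, hjk, h1, h2⟩
    simp only [Equiv.Perm.mul_apply] at h1 h2
    have lt_of : ∀ s t : Fin n, s < t → u⁻¹ (v t) < u⁻¹ (v s) → v t < v s := by
      intro s t hst hlt
      rcases lt_trichotomy (v s) (v t) with h | h | h
      · exact absurd ((show (v s, v t) ∈ Inv v from huv ⟨h, hlt⟩).2) (by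
          simp only [Equiv.symm_apply_apply]; exact hst.not_gt)
      · exact absurd (v.injective h) hst.ne
      · exact h
    exact ⟨v k, v j, v i, lt_of j k hjk h1, lt_of i j hij h2, h1, h2, by simpa using hij,
      by simpa using hjk⟩

end Pool.Agent.Lib.MP_1660ca_co
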