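import Pool.Agent.Lib.MP_1660ca_co.Dist
import Pool.Agent.Lib.MP_1660ca_co.Count

/-!
# The number of distributive intervals
-/

namespace Pool.Agent.Lib.MP_1660ca_co

open Finset

variable {n : ℕ}

lemma before_iff_get (l : List ℕ) (a b : ℕ) :
    Before l a b ↔ ∃ i j : ℕ, i < j ∧ l[i]? = some a ∧ l[j]? = some b := by
  induction l with
  | nil => simp [before_nil]
  | cons x l ih =>
    rw [before_cons, ih]
    constructor
    · rintro (⟨rfl, h⟩ | ⟨i, j, hij, h1, h2⟩)
      · obtain ⟨j, hj⟩ := List.mem_iff_getElem?.1 h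
        exact ⟨0, j + 1, by omega, by simp, by simpa using hj⟩
      · exact ⟨i + 1, j + 1, by omega, by simpa using h1, by simpa using h2⟩
    · rintro ⟨i, j, hij, h1, h2⟩
      obtain ⟨j, rfl⟩ : ∃ j', j = j' + 1 := ⟨j - 1, by omega⟩
      rw [List.getElem?_cons_succ] at h2
      cases i with
      | zero =>
        left
        simp only [List.getElem?_cons_zero, Option.some.injEq] at h1
        exact ⟨h1.symm, List.mem_iff_getElem?.2 ⟨j, h2⟩⟩
      | succ i =>
        right
        rw [List.getElem?_cons_succ] at h1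
        exact ⟨i, j, by omega, h1, h2⟩

/-- The word of a permutation. -/
def word (w : Equiv.Perm (Fin n)) : List ℕ := List.ofFn fun i => (w i : ℕ)

lemma word_get (w : Equiv.Perm (Fin n)) (i : ℕ) (a : Fin n) :
    (word w)[i]? = some (a : ℕ) ↔ i = w.symm a := by
  rw [word, List.getElem?_ofFn]
  split_ifs with h
  · rw [Option.some.injEq]
    constructor
    · intro h1
      have h2 : w ⟨i, h⟩ = a := Fin.ext h1
      rw [← h2]; simp
    · intro h1
      have h2 : (⟨i, h⟩ : Fin n) = w.symm a := Fin.ext h1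
      rw [h2]; simp
  · constructor
    · intro h1; simp at h1
    · intro h1; exact absurd (h1 ▸ (w.symm a).2) h

lemma before_word (w : Equiv.Perm (Fin n)) (a b : Fin n) :
    Before (word w) a b ↔ w.symm a < w.symm b := by
  rw [before_iff_get]
  constructor
  · rintro ⟨i, j, hij, h1, h2⟩
    rw [word_get] at h1 h2
    rw [Fin.lt_def]; omega
  · intro h
    exact ⟨w.symm a, w.symm b, h, (word_get w _ a).2 rfl, (word_get w _ b).2 rfl⟩

lemma mem_word (w : Equiv.Perm (Fin n)) (a : ℕ) : a ∈ word w ↔ a < n := by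
  rw [word, List.mem_ofFn]
  constructor
  · rintro ⟨i, rfl⟩; exact (w i).2
  · intro h; exact ⟨w.symm ⟨a, h⟩, by simp⟩

lemma word_nodup (w : Equiv.Perm (Fin n)) : (word w).Nodup := by
  rw [word, List.nodup_ofFn]
  exact fun i j hij => w.injective (Fin.ext hij)

lemma word_mem_PW (w : Equiv.Perm (Fin n)) : word w ∈ PW n := by
  rw [mem_PW, List.perm_ext_iff_of_nodup (word_nodup w) List.nodup_range]
  intro a
  rw [mem_word, List.mem_range]

lemma word_injective : Function.Injective (word (n := n)) := by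
  intro w w' h
  ext i
  have := List.ofFn_injective h
  exact congrFun this i

lemma word_surj {l : List ℕ} (h : l ∈ PW n) : ∃ w : Equiv.Perm (Fin n), word w = l := by
  have hlen := PW_length h
  have hnd := PW_nodup h
  let f : Fin n → Fin n := fun i => ⟨l[(i : ℕ)]'(by rw [hlen]; exact i.2),
    PW_lt h (List.getElem_mem _)⟩
  have hf : Function.Injective f := by
    intro i j hij
    have h1 : l[(i : ℕ)]'(by rw [hlen]; exact i.2) = l[(j : ℕ)]'(by rw [hlen]; exact j.2) :=
      congrArg Fin.val hij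
    exact Fin.ext ((List.Nodup.getElem_inj_iff hnd).1 h1)
  refine ⟨Equiv.ofBijective f (Finite.injective_iff_bijective.1 hf), ?_⟩
  rw [word]
  refine List.ext_getElem (by simp [hlen]) ?_
  intro i h1 h2
  simp [f]

lemma wgood_word (u v : Equiv.Perm (Fin n)) :
    WGood (word u) (word v) ↔ WeakLE u v ∧ ¬ Bad u v := by
  constructor
  · rintro ⟨h1, h2⟩
    refine ⟨?_, ?_⟩
    · rintro ⟨a, b⟩ hab
      refine ⟨hab.1, ?_⟩
      have := h1 a b hab.1 ((before_word u b a).2 hab.2)
      exact (before_word v b a).1 this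
    · rintro ⟨a, b, c, hab, hbc, e1, e2, e3, e4⟩
      exact h2 a b c hab hbc ((before_word u a b).2 e1) ((before_word u b c).2 e2)
        ((before_word v c b).2 e3) ((before_word v b a).2 e4)
  · rintro ⟨h1, h2⟩
    refine ⟨?_, ?_⟩
    · intro a b hab h3
      have ha := (mem_word u a).1 h3.right
      have hb := (mem_word u b).1 h3.left
      have h4 := (before_word u ⟨b, hb⟩ ⟨a, ha⟩).1 h3
      exact (before_word v ⟨b, hb⟩ ⟨a, ha⟩).2 (h1 (show (⟨a, ha⟩, ⟨b, hb⟩) ∈ Inv u from ⟨hab, h4⟩)).2
    · intro a b c hab hbc e1 e2 e3 e4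
      have ha := (mem_word u a).1 e1.left
      have hb := (mem_word u b).1 e1.right
      have hc := (mem_word u c).1 e2.right
      exact h2 ⟨⟨a, ha⟩, ⟨b, hb⟩, ⟨c, hc⟩, hab, hbc, (before_word u ⟨a, ha⟩ ⟨b, hb⟩).1 e1,
        (before_word u ⟨b, hb⟩ ⟨c, hc⟩).1 e2, (before_word v ⟨c, hc⟩ ⟨b, hb⟩).1 e3,
        (before_word v ⟨b, hb⟩ ⟨a, ha⟩).1 e4⟩

theorem d_eq_A (n : ℕ) : d n = A n 0 0 0 := by
  classical
  rw [← card_GP, d, Nat.card_eq_fintype_card, Fintype.card_subtype]
  refine card_bij (fun p _ => (word p.1, word p.2)) ?_ ?_ ?_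
  · intro p hp
    rw [mem_filter] at hp
    rw [GP, mem_filter, mem_product]
    refine ⟨⟨word_mem_PW _, word_mem_PW _⟩, ?_⟩
    exact (wgood_word _ _).2 ⟨hp.2.1, (distributive_iff hp.2.1).1 hp.2.2⟩
  · intro p _ q _ hpq
    rw [Prod.mk.injEq] at hpq
    exact Prod.ext (word_injective hpq.1) (word_injective hpq.2)
  · intro x hx
    rw [GP, mem_filter, mem_product] at hx
    obtain ⟨u, hu⟩ := word_surj hx.1.1
    obtain ⟨v, hv⟩ := word_surj hx.1.2
    refine ⟨(u, v), ?_, Prod.ext hu hv⟩
    have h1 : WGood (word u) (word v) := by rw [hu, hv]; exact hx.2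
    rw [wgood_word] at h1
    rw [mem_filter]
    exact ⟨mem_univ _, h1.1, (distributive_iff h1.1).2 h1.2⟩

theorem isSolution_A : IsSolution A := by
  refine ⟨fun h f g => by rw [A], fun k h f g => ?_⟩
  rw [A]
  congr 1
  refine sum_congr rfl fun a _ => sum_congr rfl fun b _ => ?_
  split_ifs <;> first | rfl | (rw [Finset.sum_range])

theorem isSolution_unique {A₁ : ℕ → ℕ → ℕ → ℕ → ℕ} (h₁ : IsSolution A₁) : A₁ = A := by
  funext k
  induction k using Nat.strong_induction_on with
  | _ k ih =>
    cases k with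
    | zero =>
      funext h f g
      rw [h₁.1, isSolution_A.1]
    | succ k =>
      funext h f g
      rw [h₁.2, isSolution_A.2, ih k (by omega)]
      congr 1
      refine sum_congr rfl fun a _ => sum_congr rfl fun b _ => ?_
      split_ifs
      all_goals first
        | rfl
        | (refine sum_congr rfl fun j hj => ?_
           rw [mem_range] at hj
           first
             | rw [ih j (by omega), ih (k - j) (by omega)]
             | rw [ih j (by omega)]
             | rw [ih (k - j) (by omega)])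

end Pool.Agent.Lib.MP_1660ca_co
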