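import Pool.Agent.Lib.MP_1660ca_co.Words

/-!
# The step lemma
-/

namespace Pool.Agent.Lib.MP_1660ca_co

open Finset Box

lemma split_at {L : List ℕ} {a : ℕ} (ha : a ≤ L.length) :
    ∃ L₁ L₂, L = L₁ ++ L₂ ∧ a = L₁.length :=
  ⟨L.take a, L.drop a, (List.take_append_drop a L).symm, by simp [ha]⟩

lemma ins_eq {N : ℕ} {X Y Z : List ℕ} {p : ℕ} (hp : p = X.length) (hZ : Z = X ++ Y) :
    ins N p Z = X ++ N :: Y := by
  rw [hZ, ins_append N X Y hp]

lemma real_cast {K u v : List ℕ} {S : List Box} {K' u' v' : List ℕ} {S' : List Box}
    (h : Real K u v S) (hK : K' = K) (hu : u' = u) (hv : v' = v) (hS : S' = S) :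
    Real K' u' v' S' := by
  subst hK hu hv hS; exact h

lemma real_out (N : ℕ) {H F G : List ℕ} {l : ℕ} {u v : List ℕ} {S : List Box} (hG : G ≠ [])
    (h : Real G u v S) {a b : ℕ} (ha : a ≤ H.length + F.length) (hb : b ≤ F.length + G.length)
    (hab : a ≤ H.length + b) :
    Real H (ins N b (F ++ G) ++ l :: u) (ins N a (H ++ F) ++ l :: v)
      (repOut H.length F.length G.length a b ++ S) := by
  by_cases h1 : a < H.length
  · obtain ⟨H1, H2, rfl, ha1⟩ := split_at h1.le
    have hH2 : H2 ≠ [] := by
      rintro rfl
      simp at h1
      omega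
    by_cases h2 : b ≤ F.length
    · obtain ⟨F1, F2, rfl, hb1⟩ := split_at h2
      refine real_cast (Real.cinn H1 H2 F1 N _ _ _ hH2 (Real.cout (H2 ++ F1) F2 G l u v S hG h))
        rfl ?_ ?_ ?_
      · rw [ins_eq (X := F1) (Y := F2 ++ G) hb1 (by simp)]; simp
      · rw [ins_eq (X := H1) (Y := H2 ++ (F1 ++ F2)) ha1 (by simp)]; simp
      · rw [repOut, if_pos (by omega), if_pos h1, if_pos h2, ha1, hb1]
        simp only [List.length_append, List.cons_append, List.nil_append]
        rw [show H1.length + H2.length + F1.length - H1.length = H2.length + F1.length by omega,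
          show F1.length + F2.length - F1.length = F2.length by omega]
    · obtain ⟨G1, G2, rfl, hb1⟩ := split_at (L := G) (a := b - F.length) (by omega)
      have hG1 : G1 ≠ [] := by
        rintro rfl
        simp at hb1
        omega
      have h3 := Real.cinn (H2 ++ F) G1 G2 l u v S hG1 h
      rw [List.append_assoc] at h3
      refine real_cast (Real.cinn H1 H2 (F ++ G1) N _ _ _ hH2 h3) rfl ?_ ?_ ?_
      · rw [ins_eq (X := F ++ G1) (Y := G2) (by simp; omega) (by simp)]; simp
      · rw [ins_eq (X := H1) (Y := H2 ++ F) ha1 (by simp)]; simp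
      · rw [repOut, if_pos (by omega), if_pos h1, if_neg h2, ha1]
        simp only [List.length_append, List.cons_append, List.nil_append]
        rw [show H1.length + H2.length + F.length - H1.length = H2.length + F.length by omega,
          show F.length + (G1.length + G2.length) - b = G2.length by omega,
          show F.length + G1.length = b by omega]
  · obtain ⟨F1, F', rfl, ha1⟩ := split_at (L := F) (a := a - H.length) (by omega)
    by_cases h2 : b ≤ (F1 ++ F').length
    · obtain ⟨F2, F3, rfl, hb1⟩ := split_at (L := F') (a := b - F1.length) (by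
        simp at h2; omega)
      simp only [List.length_append] at ha hb h2 ⊢
      by_cases h3 : F2 = []
      · subst h3
        simp at hb1
        refine real_cast (Real.cout H (F1 ++ N :: F3) G l u v S hG h) rfl ?_ ?_ ?_
        · rw [ins_eq (X := F1) (Y := F3 ++ G) (by omega) (by simp)]; simp
        · rw [ins_eq (X := H ++ F1) (Y := F3) (by simp; omega) (by simp)]; simp
        · rw [repOut, if_neg (by omega)]
          simp
          omega
      · have h4 : 0 < F2.length := List.length_pos_of_ne_nil h3
        refine real_cast (Real.cout H F1 F2 N _ _ _ h3 (Real.cout F2 F3 G l u v S hG h))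
          rfl ?_ ?_ ?_
        · rw [ins_eq (X := F1 ++ F2) (Y := F3 ++ G) (by simp; omega) (by simp)]; simp
        · rw [ins_eq (X := H ++ F1) (Y := F2 ++ F3) (by simp; omega) (by simp)]; simp
        · rw [repOut, if_pos (by omega), if_neg h1, if_pos h2]
          simp only [List.cons_append, List.nil_append]
          rw [show a - H.length = F1.length by omega,
            show H.length + b - a = F2.length by omega,
            show F1.length + (F2.length + F3.length) - b = F3.length by omega]
    · simp only [List.length_append] at ha hb h2 ⊢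
      obtain ⟨G1, G2, rfl, hb1⟩ := split_at (L := G) (a := b - (F1.length + F'.length)) (by omega)
      have hG1 : G1 ≠ [] := by
        rintro rfl
        simp at hb1
        omega
      have h3 := Real.cinn F' G1 G2 l u v S hG1 h
      refine real_cast (Real.cout H F1 (F' ++ G1) N _ _ _ (by simp [hG1]) h3) rfl ?_ ?_ ?_
      · rw [ins_eq (X := F1 ++ F' ++ G1) (Y := G2) (by simp; omega) (by simp)]; simp
      · rw [ins_eq (X := H ++ F1) (Y := F') (by simp; omega) (by simp)]; simp
      · rw [repOut, if_pos (by omega), if_neg h1, if_neg h2]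
        simp only [List.cons_append, List.nil_append, List.length_append]
        rw [List.length_append] at hb
        rw [show a - H.length = F1.length by omega,
          show H.length + b - a = F'.length + G1.length by omega,
          show H.length + (F1.length + F'.length) - a = F'.length by omega,
          show F1.length + F'.length + (G1.length + G2.length) - b = G2.length by omega]

lemma real_last (N : ℕ) (K F : List ℕ) {a b : ℕ} (ha : a ≤ K.length + F.length)
    (hb : b ≤ F.length) (hab : a ≤ K.length + b) :
    Real K (ins N b F) (ins N a (K ++ F)) (repOut K.length F.length 0 a b) := by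
  by_cases h1 : a < K.length
  · obtain ⟨H1, H2, rfl, ha1⟩ := split_at h1.le
    have hH2 : H2 ≠ [] := by
      rintro rfl
      simp at h1
      omega
    obtain ⟨F1, F2, rfl, hb1⟩ := split_at hb
    refine real_cast (Real.cinn H1 H2 F1 N _ _ _ hH2 (Real.last (H2 ++ F1) F2))
      rfl ?_ ?_ ?_
    · rw [ins_eq (X := F1) (Y := F2) hb1 (by simp)]
    · rw [ins_eq (X := H1) (Y := H2 ++ (F1 ++ F2)) ha1 (by simp)]; simp
    · rw [repOut, if_pos (by omega), if_pos h1, if_pos hb, ha1, hb1]
      simp only [List.length_append, List.cons_append, List.nil_append]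
      rw [show H1.length + H2.length + F1.length - H1.length = H2.length + F1.length by omega,
        show F1.length + F2.length - F1.length = F2.length by omega]
  · obtain ⟨F1, F', rfl, ha1⟩ := split_at (L := F) (a := a - K.length) (by omega)
    simp only [List.length_append] at ha hb ⊢
    obtain ⟨F2, F3, rfl, hb1⟩ := split_at (L := F') (a := b - F1.length) (by omega)
    simp only [List.length_append] at ha hb ⊢
    by_cases h3 : F2 = []
    · subst h3
      simp at hb1
      refine real_cast (Real.last K (F1 ++ N :: F3)) rfl ?_ ?_ ?_
      · rw [ins_eq (X := F1) (Y := F3) (by omega) (by simp)]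
      · rw [ins_eq (X := K ++ F1) (Y := F3) (by simp; omega) (by simp)]; simp
      · rw [repOut, if_neg (by omega)]
        simp
        omega
    · have h4 : 0 < F2.length := List.length_pos_of_ne_nil h3
      refine real_cast (Real.cout K F1 F2 N _ _ _ h3 (Real.last F2 F3))
        rfl ?_ ?_ ?_
      · rw [ins_eq (X := F1 ++ F2) (Y := F3) (by simp; omega) (by simp)]
      · rw [ins_eq (X := K ++ F1) (Y := F2 ++ F3) (by simp; omega) (by simp)]
      · rw [repOut, if_pos (by omega), if_neg h1, if_pos hb]
        simp only [List.cons_append, List.nil_append]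
        rw [show a - K.length = F1.length by omega,
          show K.length + b - a = F2.length by omega,
          show F1.length + (F2.length + F3.length) - b = F3.length by omega]

lemma real_inn (N : ℕ) {H C G : List ℕ} {l : ℕ} {u v : List ℕ} {S : List Box} (hC : C ≠ [])
    (h : Real (C ++ G) u v S) {a b : ℕ} (ha : a ≤ H.length) (hb : b ≤ G.length) :
    Real (H ++ C) (ins N b G ++ l :: u) (ins N a H ++ l :: v)
      (repInn H.length G.length a b ++ S) := by
  obtain ⟨H1, H2, rfl, ha1⟩ := split_at ha
  obtain ⟨G1, G2, rfl, hb1⟩ := split_at hb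
  have h3 := Real.cinn H2 (C ++ G1) G2 l u v S (by simp [hC])
    (real_cast h (by simp) rfl rfl rfl)
  refine real_cast (Real.cinn H1 (H2 ++ C) G1 N _ _ _ (by simp [hC])
    (real_cast h3 (by simp) rfl rfl rfl)) (by simp) ?_ ?_ ?_
  · rw [ins_eq (X := G1) (Y := G2) hb1 rfl]; simp
  · rw [ins_eq (X := H1) (Y := H2) ha1 rfl]; simp
  · rw [repInn, ha1, hb1]
    simp

lemma cond_iff {H F G : List ℕ} {p q : ℕ} (hnd : (H ++ (F ++ G)).Nodup)
    (hq : q ≤ H.length + F.length) :
    (∀ a ∈ (H ++ F).take q, a ∈ H ++ (F ++ G).take p) ↔ q ≤ H.length + p := by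
  have e1 : (H ++ F).take q = (H ++ (F ++ G)).take q := by
    rw [← List.append_assoc, List.take_append_of_le_length (l₁ := H ++ F) (by simpa using hq)]
  have e2 : H ++ (F ++ G).take p = (H ++ (F ++ G)).take (H.length + p) := by
    rw [List.take_length_add_append]
  rw [e1, e2]
  constructor
  · intro h
    have hn : ((H ++ (F ++ G)).take q).Nodup := hnd.sublist (List.take_sublist _ _)
    have h1 := (hn.subperm h).length_le
    rw [List.length_take, List.length_take, List.length_append, List.length_append] at h1
    omega
  · intro h a ha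
    exact (List.take_sublist_take_left h).subset ha

lemma ins_perm (N p : ℕ) (l : List ℕ) : (ins N p l).Perm (N :: l) := by
  rw [ins]
  refine List.perm_middle.trans ?_
  rw [List.take_append_drop]

theorem step (N : ℕ) {K u v : List ℕ} {S : List Box} (h : Real K u v S) (hnd : (K ++ u).Nodup)
    (Φ : List Box → ℕ) (Ψ : List ℕ → List ℕ → ℕ)
    (hΨ : ∀ u' v' S', Real K u' v' S' → u'.Perm (N :: u) → Ψ u' v' = Φ S') :
    T N K u v Ψ = moveSum S Φ := by
  induction h generalizing Φ Ψ with
  | last K F =>
    rw [T, moveSum_singleton, boxSum]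
    rw [List.length_append, add_zero]
    refine sum_congr rfl fun p hp => sum_congr rfl fun q hq => ?_
    rw [mem_range] at hp hq
    have h1 : Adm K (F.take p) ((K ++ F).take q) ((K ++ F).drop q) ↔ q ≤ K.length + p := by
      have h2 := cond_iff (H := K) (F := F) (G := []) (p := p) (q := q) (by simpa using hnd)
        (by omega)
      rw [List.append_nil] at h2
      rw [← h2]
      refine ⟨fun h3 => h3.1, fun h3 => ⟨h3, fun a b hab hba => ?_⟩⟩
      exact Before.asymm hnd
        (hab.mono (List.Sublist.append (List.Sublist.refl _) (List.take_sublist _ _)))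
        (hba.mono (List.drop_sublist _ _))
    simp only [h1]
    split_ifs with h3
    · exact hΨ _ _ _ (real_last N K F (by omega) (by omega) h3) (ins_perm _ _ _)
    · rfl
  | cout H F G l u v S hG h ih =>
    have hnd' : (H ++ (F ++ G) ++ l :: u).Nodup := by simpa using hnd
    have hblk : Blk H (F ++ G) (H ++ F) G l u v := ⟨by simp, hnd', h.perm, h.sub⟩
    rw [T_split hblk hG, moveSum]
    congr 1
    · rw [boxSum, List.length_append, List.length_append]
      refine sum_congr rfl fun p hp => sum_congr rfl fun q hq => ?_
      rw [mem_range] at hp hq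
      have hc := cond_iff (p := p) (q := q) hblk.nodupZ (by omega)
      simp only [hc]
      split_ifs with h3
      · refine hΨ _ _ _ (real_out N hG h (by omega) (by omega) h3) ?_
        exact (ins_perm N p (F ++ G)).append_right (l :: u)
      · rfl
    · refine ih ?_ _ _ fun u' v' S' h' hp => hΨ _ _ _ (Real.cout H F G l u' v' S' hG h') ?_
      swap
      · have := ((hp.cons l).append_left (F ++ G)).trans
          (((List.Perm.swap N l u).append_left (F ++ G)).trans List.perm_middle)
        simpa using this
      have h4 := hnd'
      rw [List.nodup_append', List.nodup_cons] at h4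
      rw [List.nodup_append']
      refine ⟨?_, h4.2.1.2, ?_⟩
      · have h5 := h4.1
        rw [← List.append_assoc, List.nodup_append'] at h5
        exact h5.2.1
      · intro a ha hu
        exact h4.2.2 (show a ∈ H ++ (F ++ G) by simp [ha]) (by simp [hu])
  | cinn H C G l u v S hC h ih =>
    have hnd' : ((H ++ C) ++ G ++ l :: u).Nodup := by simpa using hnd
    have hblk : Blk (H ++ C) G H (C ++ G) l u v := ⟨by simp, hnd', h.perm, h.sub⟩
    rw [T_split hblk (by simp [hC]), moveSum]
    congr 1
    · rw [boxSum]
      refine sum_congr rfl fun p hp => sum_congr rfl fun q hq => ?_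
      rw [mem_range] at hp hq
      rw [if_pos]
      · refine hΨ _ _ _ (real_inn N hC h (by omega) (by omega)) ?_
        exact (ins_perm N p G).append_right (l :: u)
      · intro a ha
        have := (List.take_sublist _ _).subset ha
        simp [this]
    · refine ih ?_ _ _ fun u' v' S' h' hp => hΨ _ _ _ (Real.cinn H C G l u' v' S' hC h') ?_
      swap
      · exact ((hp.cons l).append_left G).trans
          (((List.Perm.swap N l u).append_left G).trans List.perm_middle)
      have h4 := hnd'
      rw [List.nodup_append', List.nodup_cons] at h4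
      rw [List.nodup_append']
      refine ⟨?_, h4.2.1.2, ?_⟩
      · have h5 := h4.1
        rw [List.append_assoc, List.nodup_append'] at h5
        exact h5.2.1
      · intro a ha hu
        rw [List.mem_append] at ha
        exact h4.2.2 (show a ∈ H ++ C ++ G by rcases ha with ha | ha <;> simp [ha]) (by simp [hu])

/-- The number of `k`-step extensions of a pair of words by the letters `N, N + 1, …`. -/
noncomputable def E : ℕ → ℕ → List ℕ → List ℕ → ℕ
  | 0, _, _, _ => 1
  | k + 1, N, u, v => T N [] u v (fun u' v' => E k (N + 1) u' v')

theorem E_eq_W (k N : ℕ) {u v : List ℕ} {S : List Box} (h : Real [] u v S) (hnd : u.Nodup)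
    (hN : ∀ x ∈ u, x < N) : E k N u v = W k S := by
  induction k generalizing N u v S with
  | zero => rfl
  | succ k ih =>
    rw [E, W]
    refine step N h (by simpa using hnd) _ _ fun u' v' S' h' hp => ?_
    refine ih (N + 1) h' ?_ ?_
    · rw [hp.nodup_iff, List.nodup_cons]
      exact ⟨fun hm => absurd (hN N hm) (lt_irrefl _), hnd⟩
    · intro x hx
      rw [hp.mem_iff, List.mem_cons] at hx
      rcases hx with rfl | hx
      · omega
      · have := hN x hx
        omega

theorem E_eq_A (n : ℕ) : E n 0 [] [] = A n 0 0 0 := by
  have h : Real [] [] [] [out 0 0 0] := by simpa using Real.last [] []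
  rw [E_eq_W n 0 h (by simp) (by simp), ← W_out]

end Pool.Agent.Lib.MP_1660ca_co
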