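import Pool.Agent.Lib.MP_1660ca_co.Boxes

/-!
# Pairs of words and their states
-/

namespace Pool.Agent.Lib.MP_1660ca_co

open Finset Box

/-- `a` occurs before `b` in the word `l`. -/
def Before (l : List ℕ) (a b : ℕ) : Prop := List.Sublist [a, b] l

lemma before_nil (a b : ℕ) : ¬ Before [] a b := by
  simp [Before]

lemma before_cons (x : ℕ) (l : List ℕ) (a b : ℕ) :
    Before (x :: l) a b ↔ (a = x ∧ b ∈ l) ∨ Before l a b := by
  unfold Before
  constructor
  · intro h
    cases h with
    | cons _ h => exact Or.inr h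
    | cons_cons _ h => exact Or.inl ⟨rfl, by simpa using h⟩
  · rintro (⟨rfl, h⟩ | h)
    · exact List.Sublist.cons_cons _ (by simpa using h)
    · exact List.Sublist.cons _ h

lemma before_append (l₁ l₂ : List ℕ) (a b : ℕ) :
    Before (l₁ ++ l₂) a b ↔ Before l₁ a b ∨ (a ∈ l₁ ∧ b ∈ l₂) ∨ Before l₂ a b := by
  induction l₁ with
  | nil => simp [before_nil]
  | cons x l₁ ih =>
    simp only [List.cons_append, before_cons, ih, List.mem_append, List.mem_cons]
    tauto

lemma Before.left {l : List ℕ} {a b : ℕ} (h : Before l a b) : a ∈ l :=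
  h.subset (by simp)

lemma Before.right {l : List ℕ} {a b : ℕ} (h : Before l a b) : b ∈ l :=
  h.subset (by simp)

lemma Before.mono {l l' : List ℕ} {a b : ℕ} (h : Before l a b) (hl : l.Sublist l') :
    Before l' a b := List.Sublist.trans h hl

lemma Before.asymm {l : List ℕ} (hl : l.Nodup) {a b : ℕ} (h : Before l a b) : ¬ Before l b a := by
  induction l with
  | nil => exact fun h' => before_nil _ _ h'
  | cons x l ih =>
    rw [List.nodup_cons] at hl
    intro h'
    rw [before_cons] at h h'
    rcases h with ⟨rfl, h⟩ | h <;> rcases h' with ⟨rfl, h'⟩ | h'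
    · exact hl.1 h'
    · exact hl.1 h'.right
    · exact hl.1 h.right
    · exact ih hl.2 h h'

lemma before_total {l : List ℕ} {a b : ℕ} (ha : a ∈ l) (hb : b ∈ l) (hab : a ≠ b) :
    Before l a b ∨ Before l b a := by
  induction l with
  | nil => simp at ha
  | cons x l ih =>
    simp only [before_cons]
    rw [List.mem_cons] at ha hb
    rcases ha with rfl | ha <;> rcases hb with rfl | hb
    · exact absurd rfl hab
    · exact Or.inl (Or.inl ⟨rfl, hb⟩)
    · exact Or.inr (Or.inl ⟨rfl, ha⟩)
    · rcases ih ha hb with h | h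
      · exact Or.inl (Or.inr h)
      · exact Or.inr (Or.inr h)

/-- Insert the letter `N` at position `p`. -/
def ins (N p : ℕ) (l : List ℕ) : List ℕ := l.take p ++ N :: l.drop p

lemma ins_append (N : ℕ) (X Y : List ℕ) {p : ℕ} (hp : p = X.length) :
    ins N p (X ++ Y) = X ++ N :: Y := by
  subst hp; simp [ins]

lemma ins_append_left (N : ℕ) (X Y : List ℕ) {p : ℕ} (hp : p ≤ X.length) :
    ins N p (X ++ Y) = ins N p X ++ Y := by
  simp only [ins, List.take_append_of_le_length hp, List.drop_append_of_le_length hp]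
  simp

/-- Admissibility of a pair of positions, in the context `K` of pending letters. -/
def Adm (K u₁ v₁ v₂ : List ℕ) : Prop :=
  (∀ a ∈ v₁, a ∈ K ++ u₁) ∧ ∀ a b, Before (K ++ u₁) a b → ¬ Before v₂ b a

/-- `Real K u v S`: the pair of words `(u, v)` with pending letters `K` realizes the state `S`. -/
inductive Real : List ℕ → List ℕ → List ℕ → List Box → Prop
  | last (K F : List ℕ) : Real K F (K ++ F) [out K.length F.length 0]
  | cout (H F G : List ℕ) (l : ℕ) (u v : List ℕ) (S : List Box) (hG : G ≠ [])
      (h : Real G u v S) :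
      Real H (F ++ G ++ l :: u) (H ++ F ++ l :: v) (out H.length F.length G.length :: S)
  | cinn (H C G : List ℕ) (l : ℕ) (u v : List ℕ) (S : List Box) (hC : C ≠ [])
      (h : Real (C ++ G) u v S) :
      Real (H ++ C) (G ++ l :: u) (H ++ l :: v) (inn H.length G.length :: S)

lemma Real.perm {K u v : List ℕ} {S : List Box} (h : Real K u v S) : v.Perm (K ++ u) := by
  induction h with
  | last K F => exact List.Perm.refl _
  | cout H F G l u v S hG h ih =>
    have h1 : (H ++ F ++ l :: v).Perm (H ++ F ++ l :: (G ++ u)) :=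
      List.Perm.append_left _ (List.Perm.cons _ ih)
    have h2 : (H ++ F ++ l :: (G ++ u)).Perm (H ++ F ++ (G ++ l :: u)) :=
      List.Perm.append_left _ List.perm_middle.symm
    have := h1.trans h2
    simpa [List.append_assoc] using this
  | cinn H C G l u v S hC h ih =>
    have h1 : (H ++ l :: v).Perm (H ++ l :: (C ++ G ++ u)) :=
      List.Perm.append_left _ (List.Perm.cons _ ih)
    have h2 : (H ++ l :: (C ++ G ++ u)).Perm (H ++ (C ++ G ++ l :: u)) :=
      List.Perm.append_left _ List.perm_middle.symm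
    have := h1.trans h2
    simpa [List.append_assoc] using this

lemma Real.sub {K u v : List ℕ} {S : List Box} (h : Real K u v S) : K.Sublist v := by
  induction h with
  | last K F => exact List.sublist_append_left _ _
  | cout H F G l u v S hG h ih =>
    rw [List.append_assoc]; exact List.sublist_append_left _ _
  | cinn H C G l u v S hC h ih =>
    exact List.Sublist.append (List.Sublist.refl _)
      (List.Sublist.cons _ ((List.sublist_append_left _ _).trans ih))

/-- The situation at the first block of a pair of words. -/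
structure Blk (K X Y K' : List ℕ) (l : ℕ) (u v : List ℕ) : Prop where
  hZ : K ++ X = Y ++ K'
  hnd : (K ++ X ++ l :: u).Nodup
  hv : v.Perm (K' ++ u)
  hs : K'.Sublist v

section Blk

variable {K X Y K' : List ℕ} {l : ℕ} {u v : List ℕ}

lemma Blk.l_not_mem (h : Blk K X Y K' l u v) : l ∉ K ++ X := by
  have := h.hnd
  rw [List.nodup_append'] at this
  intro hl
  exact this.2.2 hl (by simp)

lemma Blk.l_not_mem_u (h : Blk K X Y K' l u v) : l ∉ u := by
  have := h.hnd
  rw [List.nodup_append', List.nodup_cons] at this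
  exact this.2.1.1

lemma Blk.nodupZ (h : Blk K X Y K' l u v) : (K ++ X).Nodup := by
  have := h.hnd
  rw [List.nodup_append'] at this
  exact this.1

lemma Blk.nodupY (h : Blk K X Y K' l u v) : (Y ++ K').Nodup := h.hZ ▸ h.nodupZ

lemma Blk.disj (h : Blk K X Y K' l u v) {a : ℕ} (ha : a ∈ K ++ X) : a ∉ u := by
  have := h.hnd
  rw [List.nodup_append'] at this
  intro hu
  exact this.2.2 ha (by simp [hu])

lemma Blk.nodupv (h : Blk K X Y K' l u v) : v.Nodup := by
  rw [h.hv.nodup_iff, List.nodup_append']
  have h1 := h.hnd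
  rw [h.hZ, List.nodup_append', List.nodup_append', List.nodup_cons] at h1
  refine ⟨h1.1.2.1, h1.2.1.2, ?_⟩
  intro a ha hu
  exact h.disj (by rw [h.hZ]; simp [ha]) hu

lemma Blk.mem_v (h : Blk K X Y K' l u v) {a : ℕ} : a ∈ v ↔ a ∈ K' ∨ a ∈ u := by
  rw [h.hv.mem_iff, List.mem_append]

lemma Blk.mem_K' (h : Blk K X Y K' l u v) {a : ℕ} (hv : a ∈ v) (ha : a ∈ K ++ X) : a ∈ K' := by
  rcases h.mem_v.1 hv with h1 | h1
  · exact h1
  · exact absurd h1 (h.disj ha)

lemma Blk.before_Z (h : Blk K X Y K' l u v) {a b : ℕ} (hab : Before v a b)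
    (ha : a ∈ K ++ X) (hb : b ∈ K ++ X) : Before K' a b := by
  have h1 := h.mem_K' hab.left ha
  have h2 := h.mem_K' hab.right hb
  have hne : a ≠ b := by
    rintro rfl
    exact Before.asymm h.nodupv hab hab
  rcases before_total h1 h2 hne with h3 | h3
  · exact h3
  · exact absurd (h3.mono h.hs) (Before.asymm h.nodupv hab)

lemma Blk.same (h : Blk K X Y K' l u v) (p q : ℕ) (a b : ℕ)
    (h1 : Before (K ++ X.take p) a b) : ¬ Before (Y.drop q ++ l :: v) b a := by
  intro h2
  have h1' : Before (K ++ X) a b :=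
    h1.mono (List.Sublist.append (List.Sublist.refl _) (List.take_sublist _ _))
  have hb : b ∈ K ++ X := h1'.right
  have ha : a ∈ K ++ X := h1'.left
  have hY : Before (Y ++ K') a b := h.hZ ▸ h1'
  rw [before_append, before_cons] at h2
  rcases h2 with h2 | ⟨h2, h3⟩ | ⟨h2, h3⟩ | h2
  · refine Before.asymm h.nodupY hY ?_
    rw [before_append]
    exact Or.inl (h2.mono (List.drop_sublist _ _))
  · have hbY : b ∈ Y := (List.drop_sublist _ _).subset h2
    rw [List.mem_cons] at h3
    rcases h3 with rfl | h3
    · exact h.l_not_mem ha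
    · refine Before.asymm h.nodupY hY ?_
      rw [before_append]
      exact Or.inr (Or.inl ⟨hbY, h.mem_K' h3 ha⟩)
  · subst h2; exact h.l_not_mem hb
  · refine Before.asymm h.nodupY hY ?_
    rw [before_append]
    exact Or.inr (Or.inr (h.before_Z h2 hb ha))

lemma Blk.mixed1 (h : Blk K X Y K' l u v) (p : ℕ) (v₁ v₂ : List ℕ) :
    ¬ Adm K (X.take p) (Y ++ l :: v₁) v₂ := by
  intro hA
  have h1 := hA.1 l (by simp)
  refine h.l_not_mem ?_
  rw [List.mem_append] at h1 ⊢
  rcases h1 with h1 | h1
  · exact Or.inl h1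
  · exact Or.inr ((List.take_sublist _ _).subset h1)

lemma Blk.mixed2 (h : Blk K X Y K' l u v) (hK' : K' ≠ []) (q : ℕ) (u₁ v₁ : List ℕ) :
    ¬ Adm K (X ++ l :: u₁) v₁ (Y.drop q ++ l :: v) := by
  intro hA
  obtain ⟨c, hc⟩ := List.exists_mem_of_ne_nil K' hK'
  refine hA.2 c l ?_ ?_
  · rw [← List.append_assoc, h.hZ, before_append]
    exact Or.inr (Or.inl ⟨by simp [hc], by simp⟩)
  · rw [before_append, before_cons]
    exact Or.inr (Or.inr (Or.inl ⟨rfl, h.hs.subset hc⟩))

lemma Blk.tail (h : Blk K X Y K' l u v) {u₁ v₁ v₂ : List ℕ} (hv : v = v₁ ++ v₂) :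
    Adm K (X ++ l :: u₁) (Y ++ l :: v₁) v₂ ↔ Adm K' u₁ v₁ v₂ := by
  have hlv : l ∉ v := by
    rw [h.mem_v]
    rintro (h1 | h1)
    · exact h.l_not_mem (by rw [h.hZ]; simp [h1])
    · exact h.l_not_mem_u h1
  have hYv : ∀ a ∈ Y, a ∉ v := by
    intro a ha hav
    have h2 := h.nodupY
    rw [List.nodup_append'] at h2
    exact h2.2.2 ha (h.mem_K' hav (by rw [h.hZ]; simp [ha]))
  constructor
  · rintro ⟨hA1, hA2⟩
    refine ⟨fun a ha => ?_, fun a b hab => hA2 a b ?_⟩
    · have h1 := hA1 a (by simp [ha])
      have hav : a ∈ v := by rw [hv]; simp [ha]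
      rw [← List.append_assoc, h.hZ] at h1
      simp only [List.mem_append, List.mem_cons] at h1 ⊢
      rcases h1 with (h1 | h1) | rfl | h1
      · exact absurd hav (hYv a h1)
      · exact Or.inl h1
      · exact absurd hav hlv
      · exact Or.inr h1
    · rw [← List.append_assoc, h.hZ]
      rw [before_append] at hab
      simp only [before_append, before_cons, List.mem_append, List.mem_cons]
      tauto
  · rintro ⟨hA1, hA2⟩
    refine ⟨fun a ha => ?_, fun a b hab hba => ?_⟩
    · rw [← List.append_assoc, h.hZ]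
      simp only [List.mem_append, List.mem_cons] at ha ⊢
      rcases ha with h1 | rfl | h1
      · exact Or.inl (Or.inl h1)
      · exact Or.inr (Or.inl rfl)
      · have := hA1 a h1
        rw [List.mem_append] at this
        tauto
    · have hav : a ∈ v := by rw [hv]; simp [hba.right]
      have hbv : b ∈ v := by rw [hv]; simp [hba.left]
      refine hA2 a b ?_ hba
      rw [← List.append_assoc, h.hZ] at hab
      simp only [before_append, before_cons, List.mem_append, List.mem_cons] at hab
      rw [before_append]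
      have ha1 : a ∉ Y := fun h1 => hYv a h1 hav
      have hb1 : b ∉ Y := fun h1 => hYv b h1 hbv
      have ha2 : a ≠ l := fun h1 => hlv (h1 ▸ hav)
      have hb2 : b ≠ l := fun h1 => hlv (h1 ▸ hbv)
      rcases hab with (h1 | ⟨h1, _⟩ | h1) | ⟨h1, h2⟩ | ⟨h1, _⟩ | h1
      · exact absurd h1.left ha1
      · exact absurd h1 ha1
      · exact Or.inl h1
      · rcases h1 with h1 | h1
        · exact absurd h1 ha1
        · rcases h2 with h2 | h2
          · exact absurd h2 hb2
          · exact Or.inr (Or.inl ⟨h1, h2⟩)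
      · exact absurd h1 ha2
      · exact Or.inr (Or.inr h1)

end Blk

open Classical in
/-- The sum of `Ψ` over all admissible insertions of the letter `N`. -/
noncomputable def T (N : ℕ) (K u v : List ℕ) (Ψ : List ℕ → List ℕ → ℕ) : ℕ :=
  ∑ p ∈ range (u.length + 1), ∑ q ∈ range (v.length + 1),
    if Adm K (u.take p) (v.take q) (v.drop q) then Ψ (ins N p u) (ins N q v) else 0

lemma take_block {X : List ℕ} {l : ℕ} {u : List ℕ} (p : ℕ) :
    (X ++ l :: u).take (X.length + 1 + p) = X ++ l :: u.take p := by
  rw [add_assoc, List.take_length_add_append, add_comm 1 p, List.take_succ_cons]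

lemma drop_block {X : List ℕ} {l : ℕ} {u : List ℕ} (p : ℕ) :
    (X ++ l :: u).drop (X.length + 1 + p) = u.drop p := by
  rw [add_assoc, List.drop_length_add_append, add_comm 1 p, List.drop_succ_cons]

lemma ins_block (N : ℕ) {X : List ℕ} {l : ℕ} {u : List ℕ} (p : ℕ) :
    ins N (X.length + 1 + p) (X ++ l :: u) = X ++ l :: ins N p u := by
  simp [ins, take_block, drop_block]

open Classical in
lemma T_split {K X Y K' : List ℕ} {l : ℕ} {u v : List ℕ} (h : Blk K X Y K' l u v)
    (hK' : K' ≠ []) (N : ℕ) (Ψ : List ℕ → List ℕ → ℕ) :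
    T N K (X ++ l :: u) (Y ++ l :: v) Ψ =
      (∑ p ∈ range (X.length + 1), ∑ q ∈ range (Y.length + 1),
        if (∀ a ∈ Y.take q, a ∈ K ++ X.take p) then
          Ψ (ins N p X ++ l :: u) (ins N q Y ++ l :: v) else 0) +
      T N K' u v (fun u' v' => Ψ (X ++ l :: u') (Y ++ l :: v')) := by
  rw [T, List.length_append, List.length_append, List.length_cons, List.length_cons,
    show X.length + (u.length + 1) + 1 = (X.length + 1) + (u.length + 1) by ring,
    show Y.length + (v.length + 1) + 1 = (Y.length + 1) + (v.length + 1) by ring,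
    Finset.sum_range_add]
  congr 1
  · refine sum_congr rfl fun p hp => ?_
    rw [mem_range] at hp
    rw [Finset.sum_range_add]
    have h0 : ∑ q ∈ range (v.length + 1),
        (if Adm K ((X ++ l :: u).take p) ((Y ++ l :: v).take (Y.length + 1 + q))
          ((Y ++ l :: v).drop (Y.length + 1 + q)) then
          Ψ (ins N p (X ++ l :: u)) (ins N (Y.length + 1 + q) (Y ++ l :: v)) else 0) = 0 := by
      refine sum_eq_zero fun q _ => ?_
      rw [if_neg]
      rw [take_block, List.take_append_of_le_length (by omega)]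
      exact h.mixed1 _ _ _
    rw [h0, add_zero]
    refine sum_congr rfl fun q hq => ?_
    rw [mem_range] at hq
    have h1 : Adm K ((X ++ l :: u).take p) ((Y ++ l :: v).take q) ((Y ++ l :: v).drop q) ↔
        ∀ a ∈ Y.take q, a ∈ K ++ X.take p := by
      rw [List.take_append_of_le_length (by omega), List.take_append_of_le_length (by omega),
        List.drop_append_of_le_length (by omega)]
      exact ⟨fun h2 => h2.1, fun h2 => ⟨h2, fun a b => h.same p q a b⟩⟩
    simp only [h1]
    rw [ins_append_left _ _ _ (by omega), ins_append_left _ _ _ (by omega)]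
  · rw [T]
    refine sum_congr rfl fun p hp => ?_
    rw [Finset.sum_range_add]
    have h0 : ∑ q ∈ range (Y.length + 1),
        (if Adm K ((X ++ l :: u).take (X.length + 1 + p)) ((Y ++ l :: v).take q)
          ((Y ++ l :: v).drop q) then
          Ψ (ins N (X.length + 1 + p) (X ++ l :: u)) (ins N q (Y ++ l :: v)) else 0) = 0 := by
      refine sum_eq_zero fun q hq => ?_
      rw [mem_range] at hq
      rw [if_neg]
      rw [take_block, List.drop_append_of_le_length (by omega)]
      exact h.mixed2 hK' _ _ _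
    rw [h0, zero_add]
    refine sum_congr rfl fun q _ => ?_
    have h1 : Adm K ((X ++ l :: u).take (X.length + 1 + p))
        ((Y ++ l :: v).take (Y.length + 1 + q)) ((Y ++ l :: v).drop (Y.length + 1 + q)) ↔
        Adm K' (u.take p) (v.take q) (v.drop q) := by
      rw [take_block, take_block, drop_block]
      exact h.tail (List.take_append_drop q v).symm
    simp only [h1, ins_block]

end Pool.Agent.Lib.MP_1660ca_co
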